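import Pool.Agent.Lib.MP_778b46_nt.VA.Arc

/-! Weighted exponential sums over primes. -/

noncomputable section

namespace Pool.Agent.Lib.MP_778b46_nt.VA

open Finset Real ArithmeticFunction

/-- `log n` on the primes and zero elsewhere. -/
def lp (n : ℕ) : ℝ := if n.Prime then Real.log n else 0

theorem lp_nonneg (n : ℕ) : 0 ≤ lp n := by
  unfold lp
  split_ifs
  · exact Real.log_natCast_nonneg n
  · exact le_rfl

theorem lp_le_log (n : ℕ) : lp n ≤ Real.log n := by
  unfold lp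
  split_ifs
  · exact le_rfl
  · exact Real.log_natCast_nonneg n

theorem sum_sub_lp_le {N : ℕ} {Y : ℝ} (hY : 1 ≤ Y) (hN : (N : ℝ) ≤ Y) :
    ∑ n ∈ Ioc 0 N, |vonMangoldt n - lp n| ≤ 2 * √Y * Real.log Y := by
  refine le_trans ?_ (Chebyshev.psi_sub_theta_le hY)
  rw [Chebyshev.psi_sub_theta_eq_sum_not_prime, sum_filter]
  refine le_trans (le_of_eq (sum_congr rfl fun n _ => ?_)) (sum_le_sum_of_subset_of_nonneg
    (Ioc_subset_Ioc_right (Nat.le_floor hN)) fun n _ _ => ?_)
  · unfold lp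
    by_cases h : n.Prime
    · simp [h, vonMangoldt_apply_prime h]
    · simp [h]
  · split_ifs <;> simp

/-- A bound for the unweighted sums gives a bound for the weighted sum over primes. -/
theorem wsum_le {N : ℕ} {Y V B w x : ℝ} (hY : 1 ≤ Y) (hN : (N : ℝ) ≤ Y) (W : ℕ → ℂ)
    (hV : ‖W N‖ + ∑ k ∈ range N, ‖W (k + 1) - W k‖ ≤ V) (hw : 0 ≤ w)
    (hB : ∀ k ≤ N, ‖GG k x‖ * w ≤ B) :
    ‖∑ n ∈ Ioc 0 N, W n * ((lp n : ℂ) * ee (n * x))‖ * w ≤
      V * (B + 2 * √Y * Real.log Y * w) := by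
  have h1 := abel_le W (fun n => (lp n : ℂ) * ee (n * x) * w) N
    (B := B + 2 * √Y * Real.log Y * w) fun k hk => by
      have hk' : (k : ℝ) ≤ Y := (Nat.cast_le.2 hk).trans hN
      have e : ∑ n ∈ Ioc 0 k, (lp n : ℂ) * ee (n * x) = GG k x -
          ∑ n ∈ Ioc 0 k, ((vonMangoldt n - lp n : ℝ) : ℂ) * ee (n * x) := by
        rw [GG, ← sum_sub_distrib]
        refine sum_congr rfl fun n _ => ?_
        push_cast
        ring
      rw [← sum_mul, norm_mul, Complex.norm_real, Real.norm_of_nonneg hw, e]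
      have h2 : ‖∑ n ∈ Ioc 0 k, ((vonMangoldt n - lp n : ℝ) : ℂ) * ee (n * x)‖ ≤
          2 * √Y * Real.log Y := by
        refine (norm_sum_le _ _).trans (le_trans (le_of_eq ?_) (sum_sub_lp_le hY hk'))
        refine sum_congr rfl fun n _ => ?_
        rw [norm_mul, norm_ee, mul_one, Complex.norm_real, Real.norm_eq_abs]
      nlinarith [hB k hk, mul_le_mul_of_nonneg_right ((norm_sub_le (GG k x) _).trans
        (add_le_add_right h2 _)) hw]
  simp only [← mul_assoc] at h1
  rw [← sum_mul, norm_mul, Complex.norm_real, Real.norm_of_nonneg hw] at h1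
  simp only [← mul_assoc]
  refine h1.trans (mul_le_mul_of_nonneg_right hV ?_)
  have := Real.log_nonneg hY
  have := (mul_nonneg (norm_nonneg _) hw).trans (hB 0 (Nat.zero_le N))
  positivity

end Pool.Agent.Lib.MP_778b46_nt.VA
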