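import Mathlib

/-! From short ranges to the full exceptional set; from a weighted count to a representation. -/

noncomputable section

namespace Pool.Agent.Lib.MP_778b46_nt.VA

open Finset Real

/-- Geometric summation of bounds for exceptional sets. -/
theorem dyadic_cover (E : ℕ → Prop) {θ lam C X0 : ℝ} (hθ : 0 < θ) (hl : 1 < lam)
    (h : ∀ X : ℝ, X0 ≤ X → ∃ S : Finset ℕ, (#S : ℝ) ≤ C * X ^ θ ∧
      ∀ m : ℕ, X ≤ m → (m : ℝ) ≤ lam * X → E m → m ∈ S) :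
    ∃ K : ℝ, 0 < K ∧ ∀ Y : ℝ, 1 ≤ Y → ∃ S : Finset ℕ, (#S : ℝ) ≤ K * Y ^ θ ∧
      ∀ m : ℕ, (m : ℝ) ≤ Y → E m → m ∈ S := by
  classical
  set Z := max X0 1 with hZ
  have hZ1 : 1 ≤ Z := le_max_right _ _
  have hZ0 : X0 ≤ Z := le_max_left _ _
  have hlt : 1 < lam ^ θ := Real.one_lt_rpow hl hθ
  set K := max (lam * Z + 1) (C / (lam ^ θ - 1)) with hK
  have hK1 : lam * Z + 1 ≤ K := le_max_left _ _
  have hK2 : C ≤ K * (lam ^ θ - 1) := (div_le_iff₀ (by linarith)).1 (le_max_right _ _)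
  have hK0 : 0 < K := by nlinarith
  have key : ∀ k : ℕ, ∀ Y : ℝ, 1 ≤ Y → Y ≤ lam ^ k → ∃ S : Finset ℕ, (#S : ℝ) ≤ K * Y ^ θ ∧
      ∀ m : ℕ, (m : ℝ) ≤ Y → E m → m ∈ S := by
    have base : ∀ Y : ℝ, 1 ≤ Y → Y ≤ lam * Z → ∃ S : Finset ℕ, (#S : ℝ) ≤ K * Y ^ θ ∧
        ∀ m : ℕ, (m : ℝ) ≤ Y → E m → m ∈ S := by
      intro Y h1 h2
      refine ⟨range (⌊Y⌋₊ + 1), ?_, fun m hm _ => mem_range.2 (Nat.lt_succ_of_le (Nat.le_floor hm))⟩
      rw [card_range]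
      push_cast
      nlinarith [Nat.floor_le (a := Y) (by linarith), Real.one_le_rpow h1 hθ.le]
    intro k
    induction k with
    | zero => exact fun Y h1 h2 => base Y h1 (by rw [pow_zero] at h2; nlinarith)
    | succ k ih =>
      intro Y h1 h2
      rcases le_or_gt Y (lam * Z) with h3 | h3
      · exact base Y h1 h3
      have hl0 : 0 < lam := by linarith
      have h4 : Z ≤ Y / lam := by
        rw [le_div_iff₀ hl0]
        linarith
      obtain ⟨S, a1, a2⟩ := ih (Y / lam) (hZ1.trans h4) (by rw [div_le_iff₀ hl0, ← pow_succ]; exact h2)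
      obtain ⟨T, b1, b2⟩ := h (Y / lam) (hZ0.trans h4)
      refine ⟨S ∪ T, ?_, fun m hm hE => ?_⟩
      · have c1 : (#(S ∪ T) : ℝ) ≤ #S + #T := by exact_mod_cast card_union_le S T
        have c2 : Y ^ θ = lam ^ θ * (Y / lam) ^ θ := by
          rw [← Real.mul_rpow hl0.le (by positivity), mul_div_cancel₀ _ hl0.ne']
        have c3 : 0 ≤ (Y / lam) ^ θ := by positivity
        rw [c2]
        nlinarith [mul_le_mul_of_nonneg_right hK2 c3]
      · rcases le_total (m : ℝ) (Y / lam) with c | c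
        · exact mem_union_left _ (a2 m c hE)
        · exact mem_union_right _ (b2 m c (by rw [mul_div_cancel₀ _ hl0.ne']; exact hm) hE)
  refine ⟨K, hK0, fun Y hY => ?_⟩
  obtain ⟨k, hk⟩ := pow_unbounded_of_one_lt Y hl
  exact key k Y hY hk.le

/-- The count of the `n ≤ N` for which `2 n` is exceptional. -/
theorem dyadic_count (E : ℕ → Prop) [DecidablePred E] {θ lam C X0 : ℝ} (hθ : 0 < θ)
    (hl : 1 < lam) (h : ∀ X : ℝ, X0 ≤ X → ∃ S : Finset ℕ, (#S : ℝ) ≤ C * X ^ θ ∧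
      ∀ m : ℕ, Even m → X ≤ m → (m : ℝ) ≤ lam * X → E m → m ∈ S) :
    ∃ K : ℝ, 0 < K ∧ ∀ N : ℕ, 1 ≤ N →
      (#((Icc 1 N).filter fun n => E (2 * n)) : ℝ) ≤ K * (N : ℝ) ^ θ := by
  obtain ⟨K, hK, h1⟩ := dyadic_cover (fun m => Even m ∧ E m) (C := C) (X0 := X0) hθ hl
    fun X hX => by
      obtain ⟨S, a1, a2⟩ := h X hX
      exact ⟨S, a1, fun m b1 b2 b3 => a2 m b3.1 b1 b2 b3.2⟩
  refine ⟨K * 2 ^ θ, by positivity, fun N hN => ?_⟩
  have hN' : (1 : ℝ) ≤ N := by exact_mod_cast hN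
  obtain ⟨S, a1, a2⟩ := h1 (2 * N) (by linarith)
  rw [Real.mul_rpow (by norm_num) (by linarith), ← mul_assoc] at a1
  refine le_trans (Nat.cast_le.2 ?_) a1
  refine card_le_card_of_injOn (fun n => 2 * n) (fun n hn => ?_) fun a _ b _ hab => by
    simpa using hab
  obtain ⟨b1, b2⟩ := mem_filter.1 (mem_coe.1 hn)
  refine mem_coe.2 (a2 _ ?_ ⟨even_two_mul n, b2⟩)
  have : (n : ℝ) ≤ N := by exact_mod_cast (mem_Icc.1 b1).2
  push_cast
  linarith

/-- From the ranges `[4 N, 5 N]` to all even numbers up to `X`. -/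
theorem exc_of_local (G : ℕ → Prop) [DecidablePred fun m => Even m ∧ ¬ G m] {θ C N0 : ℝ}
    (hθ : 0 < θ) (h : ∀ N : ℝ, N0 ≤ N → ∃ E : Finset ℕ, (#E : ℝ) ≤ C * N ^ θ ∧
      ∀ m : ℕ, Even m → 4 * N ≤ m → (m : ℝ) ≤ 5 * N → m ∉ E → G m) :
    ∃ K : ℝ, ∀ X : ℕ, 1 ≤ X →
      (#((Icc 1 X).filter fun m => Even m ∧ ¬ G m) : ℝ) ≤ K * (X : ℝ) ^ θ := by
  obtain ⟨K, -, h1⟩ := dyadic_cover (fun m => Even m ∧ ¬ G m) (C := C * (1 / 4) ^ θ)
    (X0 := max (4 * N0) 0) (lam := 5 / 4) hθ (by norm_num) fun X hX => by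
      have hX0 : 0 ≤ X := (le_max_right _ _).trans hX
      obtain ⟨S, a1, a2⟩ := h (1 / 4 * X) (by linarith [(le_max_left _ _).trans hX])
      rw [Real.mul_rpow (by norm_num) hX0, ← mul_assoc] at a1
      refine ⟨S, a1, fun m b1 b2 b3 => ?_⟩
      by_contra b4
      exact b3.2 (a2 m b3.1 (by linarith) (by linarith) b4)
  refine ⟨K, fun X hX => ?_⟩
  obtain ⟨S, a1, a2⟩ := h1 X (by exact_mod_cast hX)
  refine le_trans (Nat.cast_le.2 (card_le_card fun m hm => ?_)) a1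
  obtain ⟨b1, b2⟩ := mem_filter.1 hm
  exact a2 m (by exact_mod_cast (mem_Icc.1 b1).2) b2

/-- A weighted sum over pairs of primes that exceeds the diagonal term gives two different
primes. -/
theorem distinct_of_sum (m : ℕ) (T : Finset (ℕ × ℕ)) (f : ℕ × ℕ → ℝ) {B : ℝ} (hB : 0 ≤ B)
    (h0 : ∀ x ∈ T, f x ≠ 0 → x.1.Prime ∧ x.2.Prime ∧ x.1 + x.2 = m)
    (h1 : ∀ x ∈ T, x.1 = x.2 → f x ≤ B) (h : B < ∑ x ∈ T, f x) :
    ∃ p q : ℕ, p.Prime ∧ q.Prime ∧ p ≠ q ∧ p + q = m := by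
  by_contra hc
  push Not at hc
  have h2 : ∀ x ∈ T, x ≠ (m / 2, m / 2) → f x = 0 := by
    intro x hx hne
    by_contra h3
    obtain ⟨a1, a2, a3⟩ := h0 x hx h3
    have a4 : x.1 = x.2 := by
      by_contra a5
      exact hc _ _ a1 a2 a5 a3
    exact hne (Prod.ext (by simp only; omega) (by simp only; omega))
  by_cases hm : (m / 2, m / 2) ∈ T
  · rw [sum_eq_single_of_mem _ hm h2] at h
    exact absurd (h1 _ hm rfl) (not_le.2 h)
  · rw [sum_eq_zero fun x hx => h2 x hx fun e => hm (e ▸ hx)] at h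
    exact absurd hB (not_le.2 h)

end Pool.Agent.Lib.MP_778b46_nt.VA
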