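import Pool.Agent.Lib.MP_778b46_nt.VA.Geom

/-! Parseval's identity on the integers, triangles and their transforms. -/

noncomputable section

namespace Pool.Agent.Lib.MP_778b46_nt.VA

open Finset Real

theorem continuous_ee : Continuous ee := by
  unfold ee
  fun_prop

theorem ee_zero : ee 0 = 1 := by simp [ee]

theorem ee_orth (k : ℤ) : ∫ x in (0 : ℝ)..1, ee (k * x) = if k = 0 then 1 else 0 := by
  split_ifs with h
  · simp [h, ee_zero]
  · have hc : (2 * π * Complex.I * k : ℂ) ≠ 0 := by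
      simp [h, Real.pi_ne_zero]
    have e : ∀ x : ℝ, ee (k * x) = Complex.exp ((2 * π * Complex.I * k) * x) := by
      intro x
      unfold ee
      congr 1
      push_cast
      ring
    simp only [e]
    rw [integral_exp_mul_complex hc, ← e, ← e, mul_one, mul_zero, ee_int, ee_zero, sub_self,
      zero_div]

theorem parseval {ι : Type*} (T : Finset ι) (fr : ι → ℤ) (hfr : Set.InjOn fr T) (c : ι → ℂ) :
    ∫ x in (0 : ℝ)..1, ‖∑ m ∈ T, c m * ee (fr m * x)‖ ^ 2 = ∑ m ∈ T, ‖c m‖ ^ 2 := by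
  classical
  have hce := continuous_ee
  apply Complex.ofReal_injective
  rw [← intervalIntegral.integral_ofReal]
  have e : ∀ x : ℝ, ((‖∑ m ∈ T, c m * ee (fr m * x)‖ ^ 2 : ℝ) : ℂ) =
      ∑ m ∈ T, ∑ m' ∈ T, (starRingEnd ℂ) (c m) * c m' * ee ((fr m' - fr m : ℤ) * x) := by
    intro x
    rw [Complex.ofReal_pow, ← Complex.conj_mul', map_sum, sum_mul_sum]
    refine sum_congr rfl fun m _ => sum_congr rfl fun m' _ => ?_
    have : ((fr m' - fr m : ℤ) : ℝ) * x = -(fr m * x) + fr m' * x := by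
      push_cast
      ring
    rw [map_mul, conj_ee, this, ee_add]
    ring
  simp only [e]
  rw [intervalIntegral.integral_finsetSum fun m _ => Continuous.intervalIntegrable (by fun_prop) _ _,
    Complex.ofReal_sum]
  refine sum_congr rfl fun m hm => ?_
  rw [intervalIntegral.integral_finsetSum fun m _ => Continuous.intervalIntegrable (by fun_prop) _ _]
  simp only [intervalIntegral.integral_const_mul, ee_orth]
  rw [sum_eq_single_of_mem m hm]
  · rw [if_pos (sub_self _), mul_one, Complex.conj_mul', Complex.ofReal_pow]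
  · intro m' hm' hne
    rw [if_neg, mul_zero]
    intro h
    exact hne (hfr hm' hm (by linarith))

theorem sum_shift (φ : ℤ → ℂ) (S T : Finset ℤ) (n : ℤ) (h0 : ∀ k ∉ S, φ k = 0)
    (hT : ∀ k ∈ S, k + n ∈ T) : ∑ m ∈ T, φ (m - n) = ∑ k ∈ S, φ k := by
  have e : ∑ k ∈ S, φ k = ∑ m ∈ S.map (addRightEmbedding n), φ (m - n) := by
    rw [sum_map]
    simp
  rw [e]
  symm
  refine sum_subset (fun m hm => ?_) fun m _ hm => h0 _ fun h => hm ?_
  · obtain ⟨k, hk, rfl⟩ := mem_map.1 hm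
    exact hT k hk
  · exact mem_map.2 ⟨m - n, h, by simp⟩

/-- Mean square of a triple convolution. -/
theorem conv_sq_le (N : ℕ) (H : ℤ) (f g : ℕ → ℂ) (κ : ℤ → ℂ) (h0 : ∀ k ∉ Icc (-H) H, κ k = 0)
    {B : ℝ} (hB : ∀ x : ℝ, ‖∑ n ∈ Ioc 0 N, g n * ee (n * x)‖ *
      ‖∑ k ∈ Icc (-H) H, κ k * ee (k * x)‖ ≤ B) (S : Finset ℕ) :
    ∑ m ∈ S, ‖∑ n ∈ Ioc 0 N, ∑ n' ∈ Ioc 0 N, f n * g n' * κ (m - n - n')‖ ^ 2 ≤
      B ^ 2 * ∑ n ∈ Ioc 0 N, ‖f n‖ ^ 2 := by
  classical
  have hce := continuous_ee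
  set c : ℤ → ℂ := fun m => ∑ n ∈ Ioc 0 N, ∑ n' ∈ Ioc 0 N, f n * g n' * κ (m - n - n') with hc
  set T : Finset ℤ := S.map Nat.castEmbedding ∪ Icc (-H) (2 * N + H) with hT
  have h1 : ∑ m ∈ S, ‖c m‖ ^ 2 ≤ ∑ m ∈ T, ‖c m‖ ^ 2 := by
    have : ∑ m ∈ S, ‖c m‖ ^ 2 = ∑ m ∈ S.map Nat.castEmbedding, ‖c m‖ ^ 2 := by
      rw [sum_map]
      rfl
    rw [this]
    exact sum_le_sum_of_subset_of_nonneg subset_union_left fun _ _ _ => sq_nonneg _
  refine h1.trans ?_
  rw [← parseval T id (Set.injOn_id _) c,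
    ← parseval (Ioc 0 N) (fun n : ℕ => (n : ℤ)) (Nat.cast_injective.injOn) f,
    ← intervalIntegral.integral_const_mul]
  refine intervalIntegral.integral_mono_on (by norm_num)
    (Continuous.intervalIntegrable (by fun_prop) _ _)
    (Continuous.intervalIntegrable (by fun_prop) _ _) fun x _ => ?_
  have e : ∑ m ∈ T, c m * ee ((id m : ℤ) * x) = (∑ n ∈ Ioc 0 N, f n * ee (((n : ℤ) : ℝ) * x)) *
      ((∑ n ∈ Ioc 0 N, g n * ee (n * x)) * ∑ k ∈ Icc (-H) H, κ k * ee (k * x)) := by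
    simp only [hc, sum_mul, id]
    rw [sum_comm]
    refine sum_congr rfl fun n hn => ?_
    rw [sum_comm, mul_sum]
    refine sum_congr rfl fun n' hn' => ?_
    rw [← sum_shift (fun k => κ k * ee (k * x)) (Icc (-H) H) T (n + n')
      (fun k hk => by rw [h0 k hk, zero_mul]) (fun k hk => mem_union_right _ (by
        simp only [mem_Icc, mem_Ioc] at hk hn hn' ⊢
        omega)), mul_sum, mul_sum]
    refine sum_congr rfl fun m _ => ?_
    have e1 : (m : ℝ) * x = ((n : ℤ) : ℝ) * x + (n' * x + ((m - (n + n') : ℤ) : ℝ) * x) := by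
      push_cast
      ring
    rw [e1, ee_add, ee_add, sub_sub]
    ring
  rw [e, norm_mul, norm_mul, mul_pow, mul_comm]
  refine mul_le_mul_of_nonneg_right ?_ (sq_nonneg _)
  exact pow_le_pow_left₀ (by positivity) (hB x) 2

/-- The triangle of width `h` and mass one. -/
def tri (h : ℕ) (y : ℝ) : ℝ := max ((h : ℝ) - |y|) 0 / (h : ℝ) ^ 2

theorem tri_nonneg (h : ℕ) (y : ℝ) : 0 ≤ tri h y := by
  unfold tri
  positivity

theorem tri_eq_zero {h : ℕ} {y : ℝ} (hy : (h : ℝ) ≤ |y|) : tri h y = 0 := by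
  unfold tri
  rw [max_eq_right (by linarith), zero_div]

theorem tri_le {h : ℕ} (hh : 0 < h) (y : ℝ) : tri h y ≤ 1 / h := by
  have hh' : (0 : ℝ) < h := by exact_mod_cast hh
  unfold tri
  rw [div_le_div_iff₀ (by positivity) hh']
  have : max ((h : ℝ) - |y|) 0 ≤ h := max_le (by linarith [abs_nonneg y]) hh'.le
  nlinarith

theorem continuous_tri (h : ℕ) : Continuous (tri h) := by
  unfold tri
  fun_prop

theorem tri_convex (h : ℕ) (n : ℤ) {τ : ℝ} (h0 : 0 ≤ τ) (h1 : τ ≤ 1) :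
    tri h (n - τ) = (1 - τ) * tri h n + τ * tri h ((n - 1 : ℤ) : ℝ) := by
  unfold tri
  rw [← mul_div_assoc, ← mul_div_assoc, ← add_div]
  congr 1
  push_cast
  rcases le_or_gt 1 n with hn | hn
  · have hn' : (1 : ℝ) ≤ n := by exact_mod_cast hn
    rw [abs_of_nonneg (by linarith), abs_of_nonneg (by linarith), abs_of_nonneg (by linarith)]
    rcases le_or_gt n h with h2 | h2
    · have h2' : (n : ℝ) ≤ h := by exact_mod_cast h2
      rw [max_eq_left (by linarith), max_eq_left (by linarith), max_eq_left (by linarith)]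
      ring
    · have h2' : (h : ℝ) + 1 ≤ n := by exact_mod_cast h2
      rw [max_eq_right (by linarith), max_eq_right (by linarith), max_eq_right (by linarith)]
      ring
  · have hn' : (n : ℝ) ≤ 0 := by exact_mod_cast (by omega : n ≤ 0)
    rw [abs_of_nonpos (by linarith), abs_of_nonpos (by linarith), abs_of_nonpos (by linarith)]
    rcases le_or_gt 1 (n + h) with h2 | h2
    · have h2' : (1 : ℝ) ≤ n + h := by exact_mod_cast h2
      rw [max_eq_left (by linarith), max_eq_left (by linarith), max_eq_left (by linarith)]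
      ring
    · have h2' : (n : ℝ) + h ≤ 0 := by exact_mod_cast (by omega : n + h ≤ 0)
      rw [max_eq_right (by linarith), max_eq_right (by linarith), max_eq_right (by linarith)]
      ring

theorem fejer_count (h : ℕ) (φ : ℤ → ℂ) (T : Finset ℤ) (hT : ∀ k : ℤ, |k| < h → k ∈ T) :
    ∑ i ∈ Ico (0 : ℤ) h, ∑ j ∈ Ico (0 : ℤ) h, φ (j - i) =
      ∑ k ∈ T, ((max ((h : ℝ) - |(k : ℝ)|) 0 : ℝ) : ℂ) * φ k := by
  have e : ∀ i ∈ Ico (0 : ℤ) h, ∑ j ∈ Ico (0 : ℤ) h, φ (j - i) =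
      ∑ k ∈ T, if i ∈ Ico (-k) (h - k) then φ k else 0 := by
    intro i hi
    rw [← sum_filter]
    refine sum_nbij' (fun j => j - i) (fun k => k + i) ?_ ?_ (by simp) (by simp) (by simp)
    · intro j hj
      simp only [mem_Ico, mem_filter] at hi hj ⊢
      exact ⟨hT _ (by rw [abs_lt]; omega), by omega⟩
    · intro k hk
      simp only [mem_Ico, mem_filter] at hi hk ⊢
      omega
  rw [sum_congr rfl e, sum_comm]
  refine sum_congr rfl fun k _ => ?_
  rw [← sum_filter, sum_const, nsmul_eq_mul, filter_mem_eq_inter, Ico_inter_Ico, Int.card_Ico]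
  congr 1
  have : (((min (h : ℤ) (h - k) - max 0 (-k)).toNat : ℕ) : ℤ) = max ((h : ℤ) - |k|) 0 := by
    rcases abs_cases k with h1 | h1 <;> omega
  have h2 : (((min (h : ℤ) (h - k) - max 0 (-k)).toNat : ℕ) : ℝ) = max ((h : ℝ) - |(k : ℝ)|) 0 := by
    exact_mod_cast this
  rw [← h2]
  simp

/-- The normalised Fejer kernel. -/
def fej (h : ℕ) (β : ℝ) : ℝ := ‖∑ j ∈ Ico 0 h, ee (j * β)‖ ^ 2 / (h : ℝ) ^ 2

theorem fej_nonneg (h : ℕ) (β : ℝ) : 0 ≤ fej h β := by
  unfold fej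
  positivity

theorem fej_zero {h : ℕ} (hh : 0 < h) : fej h 0 = 1 := by
  have hh' : (0 : ℝ) < h := by exact_mod_cast hh
  unfold fej
  simp only [mul_zero, ee_zero, sum_const, Nat.card_Ico, Nat.sub_zero, nsmul_eq_mul, mul_one,
    Complex.norm_natCast]
  exact div_self (by positivity)

theorem fej_le_one {h : ℕ} (hh : 0 < h) (β : ℝ) : fej h β ≤ 1 := by
  have hh' : (0 : ℝ) < h := by exact_mod_cast hh
  unfold fej
  rw [div_le_one (by positivity)]
  refine pow_le_pow_left₀ (norm_nonneg _) ((norm_sum_le _ _).trans ?_) 2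
  simp [norm_ee]

theorem fej_le_mb (h : ℕ) (β : ℝ) : fej h β ≤ mb h β ^ 2 / (h : ℝ) ^ 2 := by
  unfold fej
  gcongr
  exact geom_le 0 h β h (Nat.cast_nonneg h) (by simp)

theorem tri_sum_int (h : ℕ) (s H : ℤ) (hs : |s| + h ≤ H + 1) (β : ℝ) :
    ∑ k ∈ Icc (-H) H, (tri h ((k - s : ℤ) : ℝ) : ℂ) * ee (k * β) = ee (s * β) * fej h β := by
  have e1 : ((fej h β : ℝ) : ℂ) = (∑ i ∈ Ico (0 : ℤ) h, ∑ j ∈ Ico (0 : ℤ) h,
      ee (((j - i : ℤ) : ℝ) * β)) / (h : ℂ) ^ 2 := by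
    unfold fej
    have e : ∑ j ∈ Ico 0 h, ee (j * β) = ∑ j ∈ Ico (0 : ℤ) h, ee (j * β) := by
      refine sum_nbij' (fun j => (j : ℤ)) (fun j => j.toNat) ?_ ?_ (by simp) ?_ (by simp)
      · intro j hj
        simp only [mem_Ico] at hj ⊢
        omega
      · intro j hj
        simp only [mem_Ico] at hj ⊢
        omega
      · intro j hj
        simp only [mem_Ico] at hj
        omega
    rw [e, Complex.ofReal_div, Complex.ofReal_pow, ← Complex.conj_mul', map_sum, sum_mul_sum]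
    congr 1
    · refine sum_congr rfl fun i _ => sum_congr rfl fun j _ => ?_
      rw [conj_ee, ← ee_add]
      congr 1
      push_cast
      ring
    · simp
  rw [e1, fejer_count h (fun k => ee (k * β)) (Ioo (-h : ℤ) h)
    (fun k hk => by rw [abs_lt] at hk; exact mem_Ioo.2 hk), sum_div, mul_sum]
  rw [← sum_shift (fun k => ee (s * β) *
    (((max ((h : ℝ) - |(k : ℝ)|) 0 : ℝ) : ℂ) * ee (k * β) / (h : ℂ) ^ 2)) (Ioo (-h : ℤ) h)
    (Icc (-H) H) s]
  · refine sum_congr rfl fun k _ => ?_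
    have : (k : ℝ) * β = s * β + ((k - s : ℤ) : ℝ) * β := by
      push_cast
      ring
    rw [this, ee_add]
    unfold tri
    push_cast
    ring
  · intro k hk
    have : (h : ℤ) ≤ |k| := by
      simp only [mem_Ioo] at hk
      rcases abs_cases k with h1 | h1 <;> omega
    have h2 : (h : ℝ) ≤ |(k : ℝ)| := by exact_mod_cast this
    rw [max_eq_right (by linarith)]
    simp
  · intro k hk
    simp only [mem_Ioo, mem_Icc] at hk ⊢
    rcases abs_cases s with h1 | h1 <;> omega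

/-- The transform of a shifted triangle. -/
def triT (h : ℕ) (u : ℝ) (H : ℤ) (β : ℝ) : ℂ :=
  ∑ k ∈ Icc (-H) H, (tri h (k - u) : ℂ) * ee (k * β)

theorem triT_eq {h : ℕ} {u : ℝ} {H : ℤ} (hu : |u| ≤ h) (hH : 2 * (h : ℤ) ≤ H) (β : ℝ) :
    triT h u H β = (((1 - Int.fract u : ℝ) : ℂ) * ee (⌊u⌋ * β) +
      (Int.fract u : ℝ) * ee ((⌊u⌋ + 1 : ℤ) * β)) * fej h β := by
  rw [abs_le] at hu
  have h1 : -(h : ℤ) ≤ ⌊u⌋ := Int.le_floor.2 (by exact_mod_cast hu.1)
  have h2 : ⌊u⌋ ≤ h := Int.floor_le_iff.2 (by push_cast; linarith)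
  rw [add_mul, mul_assoc, mul_assoc, ← tri_sum_int h ⌊u⌋ H, ← tri_sum_int h (⌊u⌋ + 1) H,
    mul_sum, mul_sum, ← sum_add_distrib]
  · refine sum_congr rfl fun k _ => ?_
    have e : (k : ℝ) - u = ((k - ⌊u⌋ : ℤ) : ℝ) - Int.fract u := by
      push_cast
      rw [Int.fract]
      ring
    rw [e, tri_convex h _ (Int.fract_nonneg u) (Int.fract_lt_one u).le, sub_sub]
    push_cast
    ring
  · rcases abs_cases (⌊u⌋ + 1) with h3 | h3 <;> omega
  · rcases abs_cases ⌊u⌋ with h3 | h3 <;> omega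

theorem norm_triT_le {h : ℕ} {u : ℝ} {H : ℤ} (hu : |u| ≤ h) (hH : 2 * (h : ℤ) ≤ H) (β : ℝ) :
    ‖triT h u H β‖ ≤ fej h β := by
  rw [triT_eq hu hH, norm_mul, Complex.norm_real, Real.norm_of_nonneg (fej_nonneg h β)]
  refine mul_le_of_le_one_left (fej_nonneg h β) ((norm_add_le _ _).trans ?_)
  rw [norm_mul, norm_mul, norm_ee, norm_ee, Complex.norm_real, Complex.norm_real,
    Real.norm_of_nonneg (Int.fract_nonneg u),
    Real.norm_of_nonneg (by linarith [Int.fract_lt_one u])]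
  linarith

theorem tri_sum_one {h : ℕ} (hh : 0 < h) {u : ℝ} {H : ℤ} (hu : |u| ≤ h) (hH : 2 * (h : ℤ) ≤ H) :
    ∑ k ∈ Icc (-H) H, tri h (k - u) = 1 := by
  have := triT_eq hu hH 0
  unfold triT at this
  simp only [mul_zero, ee_zero, mul_one, fej_zero hh] at this
  apply Complex.ofReal_injective
  rw [Complex.ofReal_sum, this]
  push_cast
  ring

theorem norm_one_sub_ee_le (k : ℤ) (β : ℝ) : ‖1 - ee (k * β)‖ ≤ 2 * π * |(k : ℝ)| * nd β := by
  have e : ee (k * β) = ee (k * (β - round β)) := by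
    have : (k : ℝ) * β = k * (β - round β) + (k * round β : ℤ) := by
      push_cast
      ring
    rw [this, ee_add, ee_int, mul_one]
  rw [e, norm_sub_rev, ee_eq]
  refine Real.norm_exp_I_mul_ofReal_sub_one_le.trans (le_of_eq ?_)
  rw [Real.norm_eq_abs, abs_mul, abs_mul (k : ℝ), abs_of_pos (by positivity : 0 < 2 * π)]
  unfold nd
  ring

theorem norm_one_sub_triT_le {h : ℕ} (hh : 0 < h) {u : ℝ} {H : ℤ} (hu : |u| ≤ h)
    (hH : 2 * (h : ℤ) ≤ H) (β : ℝ) : ‖1 - triT h u H β‖ ≤ 13 * h * nd β := by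
  have h1 := tri_sum_one hh hu hH
  have e : 1 - triT h u H β = ∑ k ∈ Icc (-H) H, (tri h (k - u) : ℂ) * (1 - ee (k * β)) := by
    simp only [mul_sub, mul_one, sum_sub_distrib]
    rw [← Complex.ofReal_sum, h1]
    rfl
  rw [e, ← one_mul (13 * h * nd β), ← h1, sum_mul]
  refine (norm_sum_le _ _).trans (sum_le_sum fun k _ => ?_)
  rw [norm_mul, Complex.norm_real, Real.norm_of_nonneg (tri_nonneg _ _)]
  rcases le_or_gt (h : ℝ) |k - u| with h2 | h2
  · rw [tri_eq_zero h2, zero_mul, zero_mul]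
  · refine mul_le_mul_of_nonneg_left ((norm_one_sub_ee_le k β).trans ?_) (tri_nonneg _ _)
    have h3 : |(k : ℝ)| ≤ 2 * h := by
      have := abs_add_le (k - u) u
      rw [sub_add_cancel] at this
      linarith
    refine mul_le_mul_of_nonneg_right ?_ (nd_nonneg β)
    nlinarith [Real.pi_lt_d2, Real.pi_pos, abs_nonneg (k : ℝ)]

end Pool.Agent.Lib.MP_778b46_nt.VA
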