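import Pool.Agent.Lib.MP_778b46_nt.VA.Main
import Pool.Agent.Lib.MP_778b46_nt.VA.Pars

/-! The exponential sum over primes near and far from fractions with small denominator. -/

noncomputable section

namespace Pool.Agent.Lib.MP_778b46_nt.VA

open Finset Real ArithmeticFunction

/-- The exponential sum over prime powers. -/
def GG (N : ℕ) (x : ℝ) : ℂ := ∑ n ∈ Ioc 0 N, ((vonMangoldt n : ℝ) : ℂ) * ee (n * x)

theorem GG_triv {N : ℕ} {Y : ℝ} (hY : 1 ≤ Y) (hN : (N : ℝ) ≤ Y) (x : ℝ) :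
    ‖GG N x‖ ≤ Y * Real.log Y := by
  refine (norm_sum_le _ _).trans ?_
  have h1 : ∀ n ∈ Ioc 0 N, ‖((vonMangoldt n : ℝ) : ℂ) * ee (n * x)‖ ≤ Real.log Y := by
    intro n hn
    rw [norm_mul, norm_ee, mul_one, Complex.norm_real, Real.norm_of_nonneg vonMangoldt_nonneg]
    have h2 : (n : ℝ) ≤ N := by exact_mod_cast (mem_Ioc.1 hn).2
    exact vonMangoldt_le_log.trans
      (Real.log_le_log (by exact_mod_cast (mem_Ioc.1 hn).1) (h2.trans hN))
  refine (sum_le_sum h1).trans ?_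
  rw [sum_const, Nat.card_Ioc, nsmul_eq_mul, Nat.sub_zero]
  exact mul_le_mul_of_nonneg_right hN (Real.log_nonneg hY)

theorem dirichlet (x : ℝ) {Q : ℝ} (hQ : 1 ≤ Q) : ∃ (a : ℤ) (q : ℕ), 0 < q ∧ (q : ℝ) ≤ Q ∧
    IsCoprime a (q : ℤ) ∧ |x - a / q| ≤ 1 / (q * Q) := by
  obtain ⟨r, h1, h2⟩ := Real.exists_rat_abs_sub_le_and_den_le x (n := ⌊Q⌋₊) (Nat.floor_pos.2 hQ)
  have hd : (0 : ℝ) < r.den := by exact_mod_cast r.den_pos
  refine ⟨r.num, r.den, r.den_pos, ?_, ?_, ?_⟩
  · exact (Nat.cast_le.2 h2).trans (Nat.floor_le (by linarith))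
  · rw [Int.isCoprime_iff_gcd_eq_one]
    exact r.reduced
  · rw [← Rat.cast_def]
    refine h1.trans (one_div_le_one_div_of_le (by positivity) ?_)
    nlinarith [Nat.lt_floor_add_one Q]

/-- The bound of Vaughan for a denominator between `P` and `Q`. -/
theorem GG_le {N : ℕ} {Y P Q x : ℝ} (hY : 1 ≤ Y) (hN : (N : ℝ) ≤ Y) (hP : 0 < P)
    (h45 : Y ^ (4 / 5 : ℝ) ≤ Y / √P) {a : ℤ} {q : ℕ} (hPq : P ≤ q) (hqQ : (q : ℝ) ≤ Q)
    (hc : IsCoprime a (q : ℤ)) (hx : |x - a / q| ≤ 1 / (q : ℝ) ^ 2) :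
    ‖GG N x‖ ≤ 277 * (2 * (Y / √P) + √(Y * Q)) * (1 + Real.log Y) ^ 3 := by
  have hq : (0 : ℝ) < q := hP.trans_le hPq
  have hl := Real.log_nonneg hY
  refine (vaughan_le (by exact_mod_cast hq) hc hx hY hN).trans ?_
  have h1 : Y / √q ≤ Y / √P := by gcongr
  have h2 : √(Y * q) ≤ √(Y * Q) := by gcongr
  gcongr
  linarith

theorem sqrt_mul_div {Y P : ℝ} (hY : 0 ≤ Y) (hP : 0 < P) : √(Y * (Y / P)) = Y / √P := by
  rw [← mul_div_assoc, Real.sqrt_div' _ hP.le, Real.sqrt_mul_self hY]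

/-- The fractions with denominator in `R`. -/
def frs (R : Finset ℕ) : Finset (Σ _ : ℕ, ℕ) :=
  R.sigma fun r => (range r).filter fun a => Nat.Coprime a r

/-- The point `x` is near the fraction `- a / r` modulo one. -/
def Near (P x : ℝ) (ω : Σ _ : ℕ, ℕ) : Prop := 2 * (ω.1 * P) * nd (x + ω.2 / ω.1) < 1

theorem near_unique {P x : ℝ} {R : Finset ℕ} (hR : ∀ r ∈ R, (r : ℝ) ≤ P) {ω ω' : Σ _ : ℕ, ℕ}
    (h : ω ∈ frs R) (h' : ω' ∈ frs R) (hn : Near P x ω) (hn' : Near P x ω') : ω = ω' := by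
  obtain ⟨r, a⟩ := ω
  obtain ⟨r', a'⟩ := ω'
  simp only [frs, mem_sigma, mem_filter, mem_range, Near] at h h' hn hn'
  obtain ⟨h1, h2, h3⟩ := h
  obtain ⟨h1', h2', h3'⟩ := h'
  have hr : (0 : ℝ) < r := by exact_mod_cast (by omega : 0 < r)
  have hr' : (0 : ℝ) < r' := by exact_mod_cast (by omega : 0 < r')
  unfold nd at hn hn'
  set n := round (x + a / r)
  set n' := round (x + a' / r')
  have e : (((a : ℤ) * r' - a' * r - (n - n') * r * r' : ℤ) : ℝ) =
      r' * (r * (x + a / r - n)) - r * (r' * (x + a' / r' - n')) := by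
    push_cast
    field_simp
    ring
  have h4 : |(((a : ℤ) * r' - a' * r - (n - n') * r * r' : ℤ) : ℝ)| < 1 := by
    rw [e]
    refine (abs_sub _ _).trans_lt ?_
    rw [abs_mul, abs_mul, abs_mul, abs_mul, abs_of_pos hr, abs_of_pos hr']
    nlinarith [hR r h1, hR r' h1', mul_nonneg hr.le (abs_nonneg (x + a / r - n)),
      mul_nonneg hr'.le (abs_nonneg (x + a' / r' - n'))]
  have h5 : (a : ℤ) * r' - a' * r - (n - n') * r * r' = 0 :=
    Int.abs_lt_one_iff.1 (by exact_mod_cast h4)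
  have d1 : r ∣ r' := by
    refine h3.symm.dvd_of_dvd_mul_left (Int.natCast_dvd_natCast.1 ⟨a' + (n - n') * r', ?_⟩)
    push_cast
    linarith
  have d2 : r' ∣ r := by
    refine h3'.symm.dvd_of_dvd_mul_left (Int.natCast_dvd_natCast.1 ⟨a - (n - n') * r, ?_⟩)
    push_cast
    linarith
  obtain rfl : r = r' := Nat.dvd_antisymm d1 d2
  have hrz : (r : ℤ) ≠ 0 := by omega
  have h6 : (a : ℤ) - a' = r * (n - n') := by
    apply mul_right_cancel₀ hrz
    linarith
  have h7 := Int.eq_zero_of_abs_lt_dvd ⟨_, h6⟩ (by rw [abs_lt]; constructor <;> omega)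
  obtain rfl : a = a' := by omega
  rfl

theorem near_approx {r a : ℕ} (hr : 0 < r) (hc : Nat.Coprime a r) (x : ℝ) :
    ∃ b : ℤ, IsCoprime b (r : ℤ) ∧ nd (x + a / r) = |x - b / r| := by
  have hr' : (0 : ℝ) < r := by exact_mod_cast hr
  refine ⟨-a + r * round (x + a / r), ?_, ?_⟩
  · exact ((Nat.isCoprime_iff_coprime.2 hc).neg_left).add_mul_left_left _
  · unfold nd
    congr 1
    push_cast
    field_simp
    ring

/-- No fraction is near. -/
theorem GG_far {N : ℕ} {Y P x : ℝ} (hN : (N : ℝ) ≤ Y) (hP : 1 ≤ P) (hPY : 2 * P ^ 2 < Y)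
    (h45 : Y ^ (4 / 5 : ℝ) ≤ Y / √P) (hf : ∀ ω ∈ frs (Icc 1 ⌊P⌋₊), ¬ Near P x ω) :
    ‖GG N x‖ ≤ 277 * (3 * (Y / √P)) * (1 + Real.log Y) ^ 3 := by
  have hY : 1 ≤ Y := by nlinarith
  have hQ : 1 ≤ Y / P := by
    rw [le_div_iff₀ (by linarith)]
    nlinarith
  obtain ⟨b, q, hq, h1, h2, h3⟩ := dirichlet x hQ
  have hq' : (0 : ℝ) < q := by exact_mod_cast hq
  have hqz : (0 : ℤ) < q := by exact_mod_cast hq
  rcases le_or_gt (q : ℝ) P with h | h
  · exfalso
    have ha : ((((-b) % q).toNat : ℕ) : ℤ) = (-b) % q :=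
      Int.toNat_of_nonneg (Int.emod_nonneg _ hqz.ne')
    have hd := Int.emod_add_mul_ediv (-b) q
    refine hf ⟨q, ((-b) % q).toNat⟩ ?_ ?_
    · simp only [frs, mem_sigma, mem_filter, mem_range, mem_Icc]
      refine ⟨⟨hq, Nat.le_floor h⟩, ?_, ?_⟩
      · have := Int.emod_lt_of_pos (-b) hqz
        omega
      · rw [← Nat.isCoprime_iff_coprime, ha]
        have : (-b) % q = -b + q * (-((-b) / q)) := by linarith
        rw [this]
        exact h2.neg_left.add_mul_left_left _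
    · unfold Near
      simp only
      have h4 := nd_le (x + (((-b) % q).toNat : ℕ) / q) (-((-b) / q))
      have h5 : ((((-b) % q).toNat : ℕ) : ℝ) + q * ((-b) / q : ℤ) = -b := by
        rw [← ha] at hd
        exact_mod_cast hd
      have e : x + (((-b) % q).toNat : ℕ) / q - (-((-b) / q) : ℤ) = x - b / q := by
        rw [Int.cast_neg, eq_sub_of_add_eq h5]
        field_simp
        ring
      rw [e] at h4
      have h6 := h4.trans h3
      rw [le_div_iff₀ (by positivity)] at h6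
      have h7 : 2 * P < Y / P := by
        rw [lt_div_iff₀ (by linarith)]
        linarith
      rcases (nd_nonneg (x + (((-b) % q).toNat : ℕ) / q)).eq_or_lt with h0 | h0
      · rw [← h0]
        norm_num
      · nlinarith [mul_pos hq' h0]
  · have := GG_le hY hN (by linarith) h45 h.le h1 h2
      (h3.trans (one_div_le_one_div_of_le (by positivity) (by nlinarith)))
    rw [sqrt_mul_div (by linarith) (by linarith)] at this
    refine this.trans (le_of_eq (by ring))

/-- A fraction is near: the second approximation. -/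
theorem GG_near {N : ℕ} {Y P x w : ℝ} (hY : 1 ≤ Y) (hN : (N : ℝ) ≤ Y) (hP : 1 ≤ P)
    (h45 : Y ^ (4 / 5 : ℝ) ≤ Y / √P) {b : ℤ} {r : ℕ} (hr : 0 < r) (hrP : (r : ℝ) ≤ P)
    (hc : IsCoprime b (r : ℤ)) (hn : 2 * (r * P) * |x - b / r| < 1) (hw0 : 0 ≤ w) (hw1 : w ≤ 2)
    (hw2 : w ≤ 13 * (r * Y / P) * |x - b / r|) :
    ‖GG N x‖ * w ≤ 277 * (12 * (Y / √P)) * (1 + Real.log Y) ^ 3 := by
  have hr' : (0 : ℝ) < r := by exact_mod_cast hr
  have hl := Real.log_nonneg hY
  set β := |x - b / r| with hβ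
  rcases (abs_nonneg (x - b / r)).eq_or_lt with h0 | h0
  · rw [hβ, ← h0, mul_zero] at hw2
    rw [le_antisymm hw2 hw0, mul_zero]
    positivity
  rw [← hβ] at h0
  have hrβ : 0 < r * β := mul_pos hr' h0
  have hQ : 1 ≤ 2 / (r * β) := by
    rw [le_div_iff₀ hrβ]
    nlinarith
  obtain ⟨a, q, hq, h1, h2, h3⟩ := dirichlet x hQ
  have hq' : (0 : ℝ) < q := by exact_mod_cast hq
  have h4 : q * |x - a / q| ≤ r * β / 2 := by
    have e : 1 / (q * (2 / (r * β))) = r * β / 2 / q := by field_simp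
    rw [e, le_div_iff₀ hq'] at h3
    linarith
  have h5 : a * r - b * q ≠ 0 := by
    intro h
    have d : (r : ℤ) ∣ q := hc.symm.dvd_of_dvd_mul_left ⟨a, by linarith⟩
    have hrq : (r : ℝ) ≤ q := by exact_mod_cast Int.le_of_dvd (by exact_mod_cast hq) d
    have h' : (a : ℝ) * r - b * q = 0 := by exact_mod_cast h
    have e : (a : ℝ) / q = b / r := by
      rw [div_eq_div_iff hq'.ne' hr'.ne']
      linarith
    rw [e, ← hβ] at h4
    nlinarith
  have h6 : (1 : ℝ) ≤ |(a : ℝ) * r - b * q| := by exact_mod_cast Int.one_le_abs h5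
  have e : (a : ℝ) * r - b * q = q * (r * (x - b / r)) - r * (q * (x - a / q)) := by
    field_simp
    ring
  have h7 := abs_sub (q * (r * (x - b / r))) (r * (q * (x - a / q)))
  rw [← e, abs_mul, abs_mul, abs_mul, abs_mul, abs_of_pos hr', abs_of_pos hq', ← hβ] at h7
  have h8 : r * (r * β) ≤ P * (r * β) := mul_le_mul_of_nonneg_right hrP hrβ.le
  have h9 : P ≤ q := by
    by_contra hc'
    have : q * (r * β) ≤ P * (r * β) := mul_le_mul_of_nonneg_right (not_le.1 hc').le hrβ.le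
    nlinarith [mul_le_mul_of_nonneg_left h4 hr'.le]
  have h10 := GG_le hY hN (by linarith) h45 h9 h1 h2
    (h3.trans (one_div_le_one_div_of_le (by positivity) (by nlinarith)))
  have h11 : √(Y * (2 / (r * β))) * w ≤ 8 * (Y / √P) := by
    refine le_of_sq_le_sq ?_ (by positivity)
    rw [mul_pow, mul_pow, div_pow, Real.sq_sqrt (by positivity), Real.sq_sqrt (by positivity)]
    have a1 : w ^ 2 ≤ 2 * (13 * (r * Y / P) * β) := by nlinarith
    refine (mul_le_mul_of_nonneg_left a1 (by positivity)).trans ?_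
    have e2 : Y * (2 / (r * β)) * (2 * (13 * (r * Y / P) * β)) = 52 * (Y ^ 2 / P) := by
      field_simp
      ring
    rw [e2]
    have : 0 ≤ Y ^ 2 / P := by positivity
    linarith
  have h12 : 0 ≤ Y / √P := by positivity
  calc ‖GG N x‖ * w ≤ 277 * (2 * (Y / √P) + √(Y * (2 / (r * β)))) * (1 + Real.log Y) ^ 3 * w :=
        mul_le_mul_of_nonneg_right h10 hw0
    _ = 277 * (2 * (Y / √P) * w + √(Y * (2 / (r * β))) * w) * (1 + Real.log Y) ^ 3 := by ring
    _ ≤ _ := by
        gcongr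
        nlinarith

/-- The fractions that are not near contribute little. -/
theorem far_le {P ρ L x : ℝ} (hP : 1 ≤ P) (hL : 1 + Real.log P ≤ L) {R : Finset ℕ}
    (hR : R ⊆ Icc 1 ⌊P⌋₊) (h : ℕ → ℕ) (hρ : ∀ r ∈ R, (r : ℝ) ≤ ρ * h r)
    [DecidablePred (Near P x)] :
    ∑ ω ∈ (frs R).filter (fun ω => ¬ Near P x ω), fej (h ω.1) (x + ω.2 / ω.1) ≤
      128 * L * P ^ 3 * ρ ^ 2 := by
  have hL1 : 1 ≤ L := by linarith [Real.log_nonneg hP]
  rw [sum_filter, frs, sum_sigma]
  have key : ∀ r ∈ R, ∑ a ∈ (range r).filter (fun a => Nat.Coprime a r),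
      (if ¬ Near P x ⟨r, a⟩ then fej (h r) (x + a / r) else 0) ≤ 128 * L * P ^ 2 * ρ ^ 2 := by
    intro r hr
    have hr1 : 0 < r := (mem_Icc.1 (hR hr)).1
    have hr' : (0 : ℝ) < r := by exact_mod_cast hr1
    have hrP : (r : ℝ) ≤ P :=
      (Nat.cast_le.2 (mem_Icc.1 (hR hr)).2).trans (Nat.floor_le (by linarith))
    have hh : (0 : ℝ) < h r := by
      rcases (Nat.cast_nonneg (α := ℝ) (h r)).eq_or_lt with h0 | h0
      · have := hρ r hr
        rw [← h0] at this
        linarith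
      · exact h0
    have hZ : 0 < r * P := by positivity
    have h1 : ∀ a ∈ range r, (if ¬ Near P x ⟨r, a⟩ then fej (h r) (x + a / r) else 0) ≤
        8 * (r * P) / (h r : ℝ) ^ 2 * mb (r * P) (a * (1 / r) + x) := by
      intro a _
      have e : (a : ℝ) * (1 / r) + x = x + a / r := by ring
      have m0 := mb_nonneg hZ.le (x + a / r)
      rw [e]
      split_ifs with hn
      · positivity
      · have m1 := mb_le_two_mb (Y := h r) hh.le hZ (x := x + a / r) (not_lt.1 hn)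
        have m2 := mb_le hZ.le (x + a / r)
        have m3 := mb_nonneg hh.le (x + a / r)
        refine (fej_le_mb _ _).trans ?_
        rw [div_mul_eq_mul_div]
        gcongr
        nlinarith
    have h2 := block_le (α := 1 / r) (a := 1) hr1 isCoprime_one_left (by simp) hZ.le x
    have h3 : Real.log r ≤ Real.log P := Real.log_le_log hr' hrP
    have h4 : 12 * (r * P) + 4 * r * (1 + Real.log r) ≤ 16 * L * (r * P) := by
      have a1 : (r : ℝ) * (1 + Real.log r) ≤ (r * P) * L :=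
        mul_le_mul (by nlinarith) (by linarith) (one_add_log_nonneg r) hZ.le
      nlinarith
    calc _ ≤ ∑ a ∈ range r, (if ¬ Near P x ⟨r, a⟩ then fej (h r) (x + a / r) else 0) :=
          sum_le_sum_of_subset_of_nonneg (filter_subset _ _) fun a _ _ => by
            split_ifs
            · exact le_rfl
            · exact fej_nonneg _ _
      _ ≤ 8 * (r * P) / (h r : ℝ) ^ 2 * (16 * L * (r * P)) := by
          refine (sum_le_sum h1).trans ?_
          rw [← mul_sum]
          exact mul_le_mul_of_nonneg_left (h2.trans h4) (by positivity)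
      _ = 128 * L * P ^ 2 * (r / h r) ^ 2 := by ring
      _ ≤ _ := by
          gcongr
          exact (div_le_iff₀ hh).2 (hρ r hr)
  refine (sum_le_sum key).trans ?_
  rw [sum_const, nsmul_eq_mul]
  have h5 : (#R : ℝ) ≤ P := by
    have := card_le_card hR
    rw [Nat.card_Icc, Nat.add_sub_cancel] at this
    exact (Nat.cast_le.2 this).trans (Nat.floor_le (by linarith))
  calc _ ≤ P * (128 * L * P ^ 2 * ρ ^ 2) := mul_le_mul_of_nonneg_right h5 (by positivity)
    _ = _ := by ring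

end Pool.Agent.Lib.MP_778b46_nt.VA
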