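import Pool.Agent.Lib.MP_778b46_nt.VA.Space

/-! Sums of the first and of the second type. -/

noncomputable section

namespace Pool.Agent.Lib.MP_778b46_nt.VA

open Finset Real

/-- Summation by parts. -/
theorem abel_eq (w z : ℕ → ℂ) (N : ℕ) :
    ∑ n ∈ Ioc 0 N, w n * z n = w N * ∑ n ∈ Ioc 0 N, z n -
      ∑ k ∈ range N, (w (k + 1) - w k) * ∑ n ∈ Ioc 0 k, z n := by
  induction N with
  | zero => simp
  | succ N ih =>
    rw [sum_Ioc_succ_top (Nat.zero_le N), sum_Ioc_succ_top (Nat.zero_le N), sum_range_succ, ih]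
    ring

theorem abel_le (w z : ℕ → ℂ) (N : ℕ) {B : ℝ} (h : ∀ k ≤ N, ‖∑ n ∈ Ioc 0 k, z n‖ ≤ B) :
    ‖∑ n ∈ Ioc 0 N, w n * z n‖ ≤ (‖w N‖ + ∑ k ∈ range N, ‖w (k + 1) - w k‖) * B := by
  rw [abel_eq, add_mul, sum_mul]
  refine (norm_sub_le _ _).trans (add_le_add ?_ ((norm_sum_le _ _).trans (sum_le_sum ?_)))
  · rw [norm_mul]
    exact mul_le_mul_of_nonneg_left (h N le_rfl) (norm_nonneg _)
  · intro k hk
    rw [norm_mul]
    exact mul_le_mul_of_nonneg_left (h k (mem_range.1 hk).le) (norm_nonneg _)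

theorem log_natCast_mono {m n : ℕ} (h : m ≤ n) : Real.log m ≤ Real.log n := by
  rcases Nat.eq_zero_or_pos m with rfl | hm
  · simpa using Real.log_natCast_nonneg n
  · exact Real.log_le_log (by exact_mod_cast hm) (by exact_mod_cast h)

theorem log_geom_le (K : ℕ) (x Y : ℝ) (hY : (K : ℝ) ≤ Y) :
    ‖∑ n ∈ Ioc 0 K, ((Real.log n : ℝ) : ℂ) * ee (n * x)‖ ≤ 2 * Real.log K * mb Y x := by
  have hY0 : 0 ≤ Y := (Nat.cast_nonneg K).trans hY
  refine (abel_le (fun n => ((Real.log n : ℝ) : ℂ)) (fun n => ee (n * x)) K (B := mb Y x)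
    fun k hk => geom_Ioc_le 0 k x Y hY0 ?_).trans (le_of_eq ?_)
  · have : (k : ℝ) ≤ K := by exact_mod_cast hk
    simp only [Nat.cast_zero, sub_zero]
    linarith
  · congr 1
    have e : ∀ k ∈ range K, ‖((Real.log (k + 1 : ℕ) : ℝ) : ℂ) - ((Real.log k : ℝ) : ℂ)‖ =
        Real.log (k + 1 : ℕ) - Real.log k := by
      intro k _
      rw [← Complex.ofReal_sub, Complex.norm_real,
        Real.norm_of_nonneg (sub_nonneg.2 (log_natCast_mono (Nat.le_succ k)))]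
    rw [sum_congr rfl e, sum_range_sub (fun k : ℕ => Real.log k), Complex.norm_real,
      Real.norm_of_nonneg (Real.log_natCast_nonneg K)]
    simp only [Nat.cast_zero, Real.log_zero]
    ring

theorem conv_sum (f g : ArithmeticFunction ℝ) (φ : ℕ → ℂ) (N : ℕ) :
    ∑ n ∈ Ioc 0 N, (((f * g) n : ℝ) : ℂ) * φ n =
      ∑ d ∈ Ioc 0 N, (f d : ℂ) * ∑ m ∈ Ioc 0 (N / d), (g m : ℂ) * φ (d * m) := by
  simp only [ArithmeticFunction.mul_apply]
  trans ∑ n ∈ Ioc 0 N, ∑ x ∈ Ioc 0 N ×ˢ Ioc 0 N with x.1 * x.2 = n,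
    (f x.1 : ℂ) * (g x.2 * φ (x.1 * x.2))
  · refine sum_congr rfl fun n hn => ?_
    simp only [mem_Ioc] at hn
    rw [Nat.divisorsAntidiagonal_eq_prod_filter_of_le hn.1.ne' hn.2, Complex.ofReal_sum, sum_mul]
    refine sum_congr rfl fun x hx => ?_
    rw [(mem_filter.1 hx).2]
    push_cast
    ring
  · simp_rw [sum_filter]
    rw [sum_comm, sum_product]
    refine sum_congr rfl fun d hd => ?_
    have hd0 : 0 < d := (mem_Ioc.1 hd).1
    have e : Ioc 0 (N / d) = (Ioc 0 N).filter fun m => d * m ≤ N := by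
      ext m
      simp only [mem_filter, mem_Ioc]
      have h1 : m ≤ N / d ↔ d * m ≤ N := by rw [Nat.le_div_iff_mul_le hd0, mul_comm]
      have h2 : N / d ≤ N := Nat.div_le_self _ _
      rw [← h1]
      omega
    rw [e, sum_filter, mul_sum]
    refine sum_congr rfl fun m hm => ?_
    have hm0 : 0 < d * m := Nat.mul_pos hd0 (mem_Ioc.1 hm).1
    simp only [sum_ite_eq, mem_Ioc, hm0, true_and, mul_ite, mul_zero]

variable {α : ℝ} {a : ℤ} {q : ℕ}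

/-- Sums of the first type. -/
theorem typeOne_le (hq : 0 < q) (hc : IsCoprime a (q : ℤ))
    (hα : |α - a / q| ≤ 1 / (q : ℝ) ^ 2) {N : ℕ} (hN : 0 < N) {E L W : ℝ} (hW : 0 ≤ W)
    (hE1 : (N : ℝ) / q ≤ E) (hE2 : (q : ℝ) ≤ E) (hL1 : 1 + Real.log N ≤ L)
    (hL2 : 1 + Real.log q ≤ L) (t : ℕ → ℂ) (h0 : ∀ d : ℕ, E < d → t d = 0)
    (h1 : ∀ d ∈ Ioc 0 N, ‖t d‖ ≤ W * mb (N / d) (d * α)) :
    ‖∑ d ∈ Ioc 0 N, t d‖ ≤ 88 * W * E * L := by
  have hN' : (1 : ℝ) ≤ N := by exact_mod_cast hN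
  have hq' : (0 : ℝ) < q := by exact_mod_cast hq
  have hE : 0 ≤ E := hq'.le.trans hE2
  set D := min N ⌊E⌋₊ with hD
  have e : ∑ d ∈ Ioc 0 N, t d = ∑ d ∈ Ioc 0 D, t d := by
    symm
    refine sum_subset (Ioc_subset_Ioc_right (min_le_left _ _)) fun d hd hd' => h0 d ?_
    simp only [mem_Ioc, hD, le_min_iff] at hd hd'
    exact Nat.lt_of_floor_lt (by omega)
  rw [e]
  refine (norm_sum_le _ _).trans ?_
  refine (sum_le_sum fun d hd => h1 d (Ioc_subset_Ioc_right (min_le_left _ _) hd)).trans ?_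
  rw [← mul_sum]
  have h2 := one_le hq hc hα (X := N) (by positivity) D
  have h3 : (D : ℝ) ≤ E := by
    have : (D : ℝ) ≤ (⌊E⌋₊ : ℕ) := by exact_mod_cast min_le_right _ _
    exact this.trans (Nat.floor_le hE)
  have h4 : Real.log (D + 1) ≤ 1 + Real.log N := by
    have hDN : (D : ℝ) ≤ N := by exact_mod_cast min_le_left _ _
    have h5 : Real.log (D + 1) ≤ Real.log (2 * N) :=
      Real.log_le_log (by positivity) (by linarith)
    rw [Real.log_mul (by norm_num) (by positivity)] at h5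
    linarith [Real.log_two_lt_d9]
  have hL0 := one_add_log_nonneg q
  have hL0' := Real.log_natCast_nonneg N
  have h5 : 24 * ((N : ℝ) / q) * (1 + Real.log (D + 1)) ≤ 24 * E * (2 * L) :=
    mul_le_mul (by linarith) (by linarith)
      (by have := Real.log_nonneg (x := (D : ℝ) + 1) (by linarith [Nat.cast_nonneg (α := ℝ) D])
          linarith) (by positivity)
  have h6 : (4 * (D : ℝ) + 36 * q) * (1 + Real.log q) ≤ 40 * E * L :=
    mul_le_mul (by linarith) hL2 hL0 (by positivity)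
  have h7 := mul_le_mul_of_nonneg_left (h2.trans (add_le_add h5 h6)) hW
  linarith

theorem block_two_le (hq : 0 < q) (hc : IsCoprime a (q : ℤ))
    (hα : |α - a / q| ≤ 1 / (q : ℝ) ^ 2) {N M : ℕ} (hM : 0 < M) {U E L B : ℝ} (hU : 0 < U)
    (hB : 0 ≤ B) (hE : 0 ≤ E) (hE1 : (N : ℝ) ^ 2 / q ≤ E ^ 2) (hE2 : (N : ℝ) ^ 2 / U ≤ E ^ 2)
    (hE3 : (N : ℝ) * q ≤ E ^ 2) (hL2 : 1 + Real.log q ≤ L) (c b : ℕ → ℝ) (hc1 : ∀ m, |c m| ≤ 1)
    (hc0 : ∀ m : ℕ, (m : ℝ) ≤ U → c m = 0) (hb1 : ∀ n ∈ Ioc 0 N, |b n| ≤ B)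
    (hb0 : ∀ n : ℕ, (n : ℝ) ≤ U → b n = 0) (T : Finset ℕ) (hT : T ⊆ Ico M (2 * M)) :
    ‖∑ m ∈ T, (c m : ℂ) * ∑ n ∈ Ioc 0 (N / m), (b n : ℂ) * ee (m * n * α)‖ ≤ 6 * B * L * E := by
  have hq' : (0 : ℝ) < q := by exact_mod_cast hq
  have hM' : (0 : ℝ) < M := by exact_mod_cast hM
  have hL1 : 1 ≤ 1 + Real.log q := by linarith [Real.log_natCast_nonneg q]
  have hL : 0 ≤ L := by linarith
  have hN : (0 : ℝ) ≤ N := Nat.cast_nonneg N
  set K := N / M with hK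
  have hK0 : (0 : ℝ) ≤ K := Nat.cast_nonneg K
  have hMK : (M : ℝ) * K ≤ N := by exact_mod_cast Nat.mul_div_le N M
  rcases le_or_gt (2 * (M : ℝ)) U with h1 | h1
  · rw [sum_eq_zero, norm_zero]
    · positivity
    intro m hm
    have : (m : ℝ) ≤ (2 * M : ℕ) := by exact_mod_cast (mem_Ico.1 (hT hm)).2.le
    push_cast at this
    rw [hc0 m (by linarith), Complex.ofReal_zero, zero_mul]
  rcases le_or_gt (K : ℝ) U with h2 | h2
  · rw [sum_eq_zero, norm_zero]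
    · positivity
    intro m hm
    rw [sum_eq_zero, mul_zero]
    intro n hn
    have h3 : n ≤ K := (mem_Ioc.1 hn).2.trans (Nat.div_le_div_left (mem_Ico.1 (hT hm)).1 hM)
    have : (n : ℝ) ≤ K := by exact_mod_cast h3
    rw [hb0 n (by linarith), Complex.ofReal_zero, zero_mul]
  have h3 := two_sq_le hq hc hα N M hM b (B := B)
    fun n hn => hb1 n (Ioc_subset_Ioc_right (Nat.div_le_self _ _) hn)
  rw [← hK] at h3
  set I : ℕ → ℝ := fun m => ‖∑ n ∈ Ioc 0 (N / m), (b n : ℂ) * ee (m * n * α)‖ with hI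
  have h4 : ‖∑ m ∈ T, (c m : ℂ) * ∑ n ∈ Ioc 0 (N / m), (b n : ℂ) * ee (m * n * α)‖ ≤
      ∑ m ∈ Ico M (2 * M), I m := by
    refine (norm_sum_le _ _).trans ((sum_le_sum fun m _ => ?_).trans
      (sum_le_sum_of_subset_of_nonneg hT fun _ _ _ => norm_nonneg _))
    rw [norm_mul, Complex.norm_real, Real.norm_eq_abs]
    exact mul_le_of_le_one_left (norm_nonneg _) (hc1 m)
  refine h4.trans ?_
  have h5 := sq_sum_le_card_mul_sum_sq (s := Ico M (2 * M)) (f := I)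
  rw [Nat.card_Ico, show 2 * M - M = M by omega] at h5
  refine le_of_sq_le_sq (h5.trans ?_) (by positivity)
  have hKU : (K : ℝ) ≤ 2 * (N / U) := by
    rw [← mul_div_assoc, le_div_iff₀ hU]
    nlinarith
  have hMU : (M : ℝ) ≤ N / U := by
    rw [le_div_iff₀ hU]
    nlinarith
  have hMKq : (M : ℝ) * K / q ≤ N / q := div_le_div_of_nonneg_right hMK hq'.le
  have h6 : ((K : ℝ) / q + 1) * (12 * M + 4 * q * (1 + Real.log q)) ≤
      (12 * (N / q) + 20 * (N / U) + 4 * q) * L := by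
    have e : ((K : ℝ) / q + 1) * (12 * M + 4 * q * (1 + Real.log q)) =
        12 * (M * K / q) + 12 * M + (4 * K + 4 * q) * (1 + Real.log q) := by
      field_simp
    rw [e]
    have hLL : 1 ≤ L := hL1.trans hL2
    have a1 : (0 : ℝ) ≤ N / q := by positivity
    have a2 : (0 : ℝ) ≤ N / U := by positivity
    have a3 : (4 * (K : ℝ) + 4 * q) * (1 + Real.log q) ≤ (8 * (N / U) + 4 * q) * L :=
      mul_le_mul (by linarith) hL2 (by linarith) (by positivity)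
    nlinarith [mul_le_mul_of_nonneg_left hLL a1, mul_le_mul_of_nonneg_left hLL a2]
  have h7 : (N : ℝ) * (12 * (N / q) + 20 * (N / U) + 4 * q) ≤ 36 * E ^ 2 := by
    have e : (N : ℝ) * (12 * (N / q) + 20 * (N / U) + 4 * q) =
        12 * (N ^ 2 / q) + 20 * (N ^ 2 / U) + 4 * (N * q) := by ring
    rw [e]
    linarith
  have hLL : L ≤ L ^ 2 := by nlinarith
  calc (M : ℝ) * ∑ m ∈ Ico M (2 * M), I m ^ 2
      ≤ M * (B ^ 2 * K * ((12 * (N / q) + 20 * (N / U) + 4 * q) * L)) :=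
        mul_le_mul_of_nonneg_left (h3.trans (mul_le_mul_of_nonneg_left h6 (by positivity))) hM'.le
    _ = B ^ 2 * L * ((M * K) * (12 * (N / q) + 20 * (N / U) + 4 * q)) := by ring
    _ ≤ B ^ 2 * L ^ 2 * (N * (12 * (N / q) + 20 * (N / U) + 4 * q)) := by gcongr
    _ ≤ B ^ 2 * L ^ 2 * (36 * E ^ 2) := by gcongr
    _ = (6 * B * L * E) ^ 2 := by ring

/-- Sums of the second type. -/
theorem typeTwo_le (hq : 0 < q) (hc : IsCoprime a (q : ℤ))
    (hα : |α - a / q| ≤ 1 / (q : ℝ) ^ 2) {N : ℕ} {U E L B : ℝ} (hU : 0 < U)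
    (hB : 0 ≤ B) (hE : 0 ≤ E) (hE1 : (N : ℝ) ^ 2 / q ≤ E ^ 2) (hE2 : (N : ℝ) ^ 2 / U ≤ E ^ 2)
    (hE3 : (N : ℝ) * q ≤ E ^ 2) (hL1 : 1 + Real.log N ≤ L) (hL2 : 1 + Real.log q ≤ L)
    (c b : ℕ → ℝ) (hc1 : ∀ m, |c m| ≤ 1)
    (hc0 : ∀ m : ℕ, (m : ℝ) ≤ U → c m = 0) (hb1 : ∀ n ∈ Ioc 0 N, |b n| ≤ B)
    (hb0 : ∀ n : ℕ, (n : ℝ) ≤ U → b n = 0) :
    ‖∑ m ∈ Ioc 0 N, (c m : ℂ) * ∑ n ∈ Ioc 0 (N / m), (b n : ℂ) * ee (m * n * α)‖ ≤
      12 * B * L ^ 2 * E := by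
  have hL : 0 ≤ L := (one_add_log_nonneg q).trans hL2
  rw [← sum_fiberwise_of_maps_to (s := Ioc 0 N) (t := range (Nat.log 2 N + 1)) (g := Nat.log 2)
    fun m hm => mem_range.2 (Nat.lt_succ_of_le (Nat.log_mono_right (mem_Ioc.1 hm).2))]
  refine (norm_sum_le _ _).trans ?_
  refine (sum_le_sum fun k _ => block_two_le hq hc hα (M := 2 ^ k) (by positivity) hU hB hE hE1
    hE2 hE3 hL2 c b hc1 hc0 hb1 hb0 _ ?_).trans ?_
  · intro m hm
    obtain ⟨h1, h2⟩ := mem_filter.1 hm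
    have h3 : m ≠ 0 := (mem_Ioc.1 h1).1.ne'
    rw [mem_Ico, ← h2, ← pow_succ']
    exact ⟨Nat.pow_log_le_self 2 h3, Nat.lt_pow_succ_log_self (by norm_num) m⟩
  · rw [sum_const, card_range, nsmul_eq_mul]
    have h1 : (Nat.log 2 N : ℝ) * Real.log 2 ≤ Real.log N := by
      rcases Nat.eq_zero_or_pos N with rfl | hN
      · simp
      · rw [← Real.log_pow]
        refine Real.log_le_log (by positivity) ?_
        exact_mod_cast Nat.pow_log_le_self 2 hN.ne'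
    have h2 : ((Nat.log 2 N + 1 : ℕ) : ℝ) ≤ 2 * L := by
      push_cast
      nlinarith [Real.log_two_gt_d9, Nat.cast_nonneg (α := ℝ) (Nat.log 2 N)]
    calc _ ≤ (2 * L) * (6 * B * L * E) := mul_le_mul_of_nonneg_right h2 (by positivity)
      _ = _ := by ring

end Pool.Agent.Lib.MP_778b46_nt.VA
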