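import Mathlib

/-! Geometric sums and the spacing of the multiples of a real number modulo one. -/

noncomputable section

namespace Pool.Agent.Lib.MP_778b46_nt.VA

open Finset Real

/-- The additive character `e(x) = exp(2 π i x)`. -/
def ee (x : ℝ) : ℂ := Complex.exp (2 * π * Complex.I * x)

/-- Distance to the nearest integer. -/
def nd (x : ℝ) : ℝ := |x - round x|

/-- A smooth version of `min (Y, 1 / (2 ‖x‖))`. -/
def mb (Y x : ℝ) : ℝ := 2 * Y / (1 + 2 * Y * nd x)

theorem ee_add (x y : ℝ) : ee (x + y) = ee x * ee y := by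
  unfold ee
  rw [← Complex.exp_add]
  congr 1
  push_cast
  ring

theorem ee_eq (x : ℝ) : ee x = Complex.exp (Complex.I * (2 * π * x : ℝ)) := by
  unfold ee
  congr 1
  push_cast
  ring

theorem norm_ee (x : ℝ) : ‖ee x‖ = 1 := by
  rw [ee_eq, mul_comm]
  exact Complex.norm_exp_ofReal_mul_I _

theorem ee_int (n : ℤ) : ee n = 1 := by
  unfold ee
  have := Complex.exp_int_mul_two_pi_mul_I n
  rw [← this]
  congr 1
  push_cast
  ring

theorem ee_nat_mul (n : ℕ) (x : ℝ) : ee (n * x) = ee x ^ n := by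
  unfold ee
  rw [← Complex.exp_nat_mul]
  congr 1
  push_cast
  ring

theorem conj_ee (x : ℝ) : (starRingEnd ℂ) (ee x) = ee (-x) := by
  unfold ee
  rw [← Complex.exp_conj]
  congr 1
  simp only [map_mul, Complex.conj_ofReal, Complex.conj_I, map_ofNat]
  push_cast
  ring

theorem nd_nonneg (x : ℝ) : 0 ≤ nd x := abs_nonneg _

theorem nd_le_half (x : ℝ) : nd x ≤ 1 / 2 := abs_sub_round x

theorem nd_le (x : ℝ) (n : ℤ) : nd x ≤ |x - n| := round_le x n

theorem nd_neg (x : ℝ) : nd (-x) = nd x := by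
  have key : ∀ y : ℝ, nd (-y) ≤ nd y := by
    intro y
    have := nd_le (-y) (-round y)
    refine this.trans (le_of_eq ?_)
    unfold nd
    rw [← abs_neg]
    congr 1
    push_cast
    ring
  refine le_antisymm (key x) ?_
  have := key (-x)
  rwa [neg_neg] at this

theorem mb_nonneg {Y : ℝ} (hY : 0 ≤ Y) (x : ℝ) : 0 ≤ mb Y x := by
  have := nd_nonneg x
  unfold mb
  positivity

theorem mb_neg (Y x : ℝ) : mb Y (-x) = mb Y x := by
  unfold mb
  rw [nd_neg]

theorem mb_le {Y : ℝ} (hY : 0 ≤ Y) (x : ℝ) : mb Y x ≤ 2 * Y := by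
  have := nd_nonneg x
  unfold mb
  exact div_le_self (by positivity) (by nlinarith [mul_nonneg hY this])

theorem mb_le_inv {Y : ℝ} (hY : 0 ≤ Y) {x δ : ℝ} (hδ : 0 < δ) (h : δ ≤ nd x) :
    mb Y x ≤ 1 / δ := by
  have h0 := nd_nonneg x
  unfold mb
  rw [div_le_div_iff₀ (by positivity) hδ]
  nlinarith [mul_le_mul_of_nonneg_left h hY]

theorem mb_mono {Y Y' : ℝ} (hY : 0 ≤ Y) (h : Y ≤ Y') (x : ℝ) : mb Y x ≤ mb Y' x := by
  have h0 := nd_nonneg x
  have hY' : 0 ≤ Y' := hY.trans h
  unfold mb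
  rw [div_le_div_iff₀ (by positivity) (by positivity)]
  nlinarith

theorem norm_ee_sub_one (x : ℝ) : 4 * nd x ≤ ‖ee x - 1‖ := by
  have hpi := Real.pi_pos
  have e1 : ee x = ee (x - round x) := by
    have : x = (x - round x) + (round x : ℤ) := by ring
    conv_lhs => rw [this, ee_add, ee_int, mul_one]
  rw [e1, ee_eq, Complex.norm_exp_I_mul_ofReal_sub_one]
  have h1 := nd_le_half x
  unfold nd at h1 ⊢
  generalize x - round x = t at *
  have e : 2 * π * t / 2 = π * t := by ring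
  rw [e, Real.norm_eq_abs, abs_mul, abs_two]
  have h2 : |π * t| ≤ π / 2 := by
    rw [abs_mul, abs_of_pos hpi]
    nlinarith
  have h3 := Real.mul_abs_le_abs_sin h2
  rw [abs_mul, abs_of_pos hpi] at h3
  have e2 : 2 / π * (π * |t|) = 2 * |t| := by field_simp
  linarith

/-- The geometric sum bound. -/
theorem geom_le (A B : ℕ) (x Y : ℝ) (hY0 : 0 ≤ Y) (hY : (B : ℝ) - A ≤ Y) :
    ‖∑ n ∈ Ico A B, ee (n * x)‖ ≤ mb Y x := by
  rcases le_or_gt B A with h | h
  · rw [Ico_eq_empty_of_le h, sum_empty, norm_zero]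
    exact mb_nonneg hY0 x
  have h1 : ‖∑ n ∈ Ico A B, ee (n * x)‖ ≤ Y := by
    refine (norm_sum_le _ _).trans ?_
    simp only [norm_ee, sum_const, Nat.card_Ico, nsmul_eq_mul, mul_one]
    rw [Nat.cast_sub h.le]
    exact hY
  have h4 := congrArg norm (geom_sum_Ico_mul (ee x) h.le)
  rw [norm_mul] at h4
  have h5 : ‖ee x ^ B - ee x ^ A‖ ≤ 2 := by
    refine (norm_sub_le _ _).trans ?_
    rw [norm_pow, norm_pow, norm_ee]
    norm_num
  simp only [← ee_nat_mul] at h4 h5
  have h6 := norm_ee_sub_one x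
  have h0 := nd_nonneg x
  have h7 := norm_nonneg (∑ n ∈ Ico A B, ee (n * x))
  generalize ‖∑ n ∈ Ico A B, ee (n * x)‖ = S at *
  unfold mb
  rw [le_div_iff₀ (by positivity)]
  have h8 : S * (4 * nd x) ≤ 2 := by nlinarith [mul_le_mul_of_nonneg_left h6 h7]
  nlinarith

theorem geom_Ioc_le (A B : ℕ) (x Y : ℝ) (hY0 : 0 ≤ Y) (hY : (B : ℝ) - A ≤ Y) :
    ‖∑ n ∈ Ioc A B, ee (n * x)‖ ≤ mb Y x := by
  have : Ioc A B = Ico (A + 1) (B + 1) := by
    ext n
    simp only [mem_Ioc, mem_Ico]
    omega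
  rw [this]
  refine geom_le _ _ x Y hY0 ?_
  push_cast
  linarith

theorem harm_le (n : ℕ) : ∑ j ∈ range n, (1 : ℝ) / (j + 1) ≤ 1 + Real.log n := by
  have h := harmonic_le_one_add_log n
  unfold harmonic at h
  push_cast at h
  simpa [one_div] using h

/-- The majorant used in one block. -/
def gb (Y : ℝ) (q j : ℕ) : ℝ := if j ≤ 2 then 2 * Y else 2 * q / j

theorem gb_nonneg {Y : ℝ} (hY : 0 ≤ Y) (q j : ℕ) : 0 ≤ gb Y q j := by
  unfold gb
  split_ifs <;> positivity

theorem gb_sum {Y : ℝ} (hY : 0 ≤ Y) (q : ℕ) :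
    ∑ j ∈ range (q + 1), gb Y q j ≤ 6 * Y + 2 * q * (1 + Real.log q) := by
  have h1 : ∀ j ∈ range (q + 1), gb Y q j ≤ (if j ∈ range 3 then 2 * Y else 0) + 2 * q * (1 / j) := by
    intro j _
    unfold gb
    by_cases h : j ≤ 2
    · rw [if_pos h, if_pos (by simp; omega)]
      have : (0 : ℝ) ≤ 2 * q * (1 / j) := by positivity
      linarith
    · rw [if_neg h, if_neg (by simp; omega)]
      rw [mul_one_div, zero_add]
  refine (sum_le_sum h1).trans ?_
  rw [sum_add_distrib, ← mul_sum, sum_range_succ' (fun j : ℕ => (1 : ℝ) / j)]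
  have h2 := harm_le q
  have h3 : ∑ j ∈ range (q + 1), (if j ∈ range 3 then 2 * Y else 0) ≤ 6 * Y := by
    rw [← sum_filter, sum_const, nsmul_eq_mul]
    have : #((range (q + 1)).filter fun j => j ∈ range 3) ≤ 3 := by
      refine (card_le_card (t := range 3) ?_).trans (by simp)
      intro j hj
      exact (mem_filter.1 hj).2
    have : (#((range (q + 1)).filter fun j => j ∈ range 3) : ℝ) ≤ 3 := by exact_mod_cast this
    nlinarith
  push_cast
  simp only [div_zero, add_zero]
  have hq : (0 : ℝ) ≤ 2 * q := by positivity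
  nlinarith [mul_le_mul_of_nonneg_left h2 hq]

theorem mb_le_gb {Y : ℝ} (hY : 0 ≤ Y) {q : ℕ} (hq : 0 < q) (j : ℕ) (x : ℝ)
    (h : (j : ℝ) - 3 / 2 ≤ q * nd x) : mb Y x ≤ gb Y q j := by
  unfold gb
  split_ifs with hj
  · exact mb_le hY x
  · have hj' : (3 : ℝ) ≤ j := by exact_mod_cast (by omega : 3 ≤ j)
    have hq' : (0 : ℝ) < q := by exact_mod_cast hq
    have := mb_le_inv hY (x := x) (δ := j / (2 * q)) (by positivity)
      (by rw [div_le_iff₀ (by positivity)]; nlinarith)
    rwa [one_div_div] at this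

/-- One block of `q` consecutive multiples. -/
theorem block_le {α : ℝ} {a : ℤ} {q : ℕ} (hq : 0 < q) (hc : IsCoprime a (q : ℤ))
    (hα : |α - a / q| ≤ 1 / (q : ℝ) ^ 2) {Y : ℝ} (hY : 0 ≤ Y) (β : ℝ) :
    ∑ r ∈ range q, mb Y (r * α + β) ≤ 12 * Y + 4 * q * (1 + Real.log q) := by
  have hq' : (0 : ℝ) < q := by exact_mod_cast hq
  have hqz : (0 : ℤ) < q := by exact_mod_cast hq
  set b : ℤ := round (q * β) with hb
  set s : ℕ → ℕ := fun r => ((b + r * a) % q).toNat with hs
  have hs1 : ∀ r, ((s r : ℕ) : ℤ) = (b + r * a) % q := fun r =>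
    Int.toNat_of_nonneg (Int.emod_nonneg _ hqz.ne')
  have hs2 : ∀ r, s r < q := fun r => by
    have := Int.emod_lt_of_pos (b + r * a) hqz
    rw [← hs1] at this
    exact_mod_cast this
  have hinj : Set.InjOn s (range q : Finset ℕ) := by
    intro r hr r' hr' h
    have h1 : (b + r * a) % q = (b + r' * a) % q := by rw [← hs1, ← hs1, h]
    have h2 : (q : ℤ) ∣ ((r' : ℤ) - r) * a := by
      have := Int.ModEq.dvd (n := (q : ℤ)) h1
      have e : b + (r' : ℤ) * a - (b + r * a) = ((r' : ℤ) - r) * a := by ring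
      rwa [e] at this
    have h3 : (q : ℤ) ∣ (r' : ℤ) - r := hc.symm.dvd_of_dvd_mul_right h2
    simp only [coe_range, Set.mem_Iio] at hr hr'
    have h4 := Int.eq_zero_of_abs_lt_dvd h3 (by rw [abs_lt]; constructor <;> omega)
    omega
  have key : ∀ r ∈ range q, mb Y (r * α + β) ≤ gb Y q (s r) + gb Y q (q - s r) := by
    intro r hr
    have hr' : (r : ℝ) ≤ q := by exact_mod_cast (mem_range.1 hr).le
    have hr0 : (0 : ℝ) ≤ r := Nat.cast_nonneg r
    set n : ℤ := round (r * α + β) with hn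
    obtain ⟨t, ht⟩ : ∃ t : ℤ, b + r * a - q * n = s r - q * t :=
      ⟨n - (b + r * a) / q, by
        rw [hs1]
        have := Int.emod_add_mul_ediv (b + r * a) q
        linarith⟩
    have ht' : (b : ℝ) + r * a - q * n = s r - q * t := by exact_mod_cast ht
    have e1 : q * (r * α + β - n) = (s r - q * t) + (r * (q * (α - a / q)) + (q * β - b)) := by
      rw [← ht']
      field_simp
      ring
    have e2 : |(r : ℝ) * (q * (α - a / q)) + (q * β - b)| ≤ 3 / 2 := by
      refine (abs_add_le _ _).trans ?_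
      have h1 : |(q : ℝ) * β - b| ≤ 1 / 2 := abs_sub_round _
      have h2 : |(r : ℝ) * (q * (α - a / q))| ≤ 1 := by
        rw [abs_mul, abs_mul, abs_of_nonneg hr0, abs_of_pos hq']
        rw [le_div_iff₀ (by positivity)] at hα
        nlinarith [mul_nonneg hq'.le (abs_nonneg (α - a / q))]
      linarith
    have e3 : q * nd (r * α + β) = |q * (r * α + β - n)| := by
      rw [abs_mul, abs_of_pos hq']
      rfl
    rw [abs_le] at e2
    have g1 := gb_nonneg hY q (s r)
    have g2 := gb_nonneg hY q (q - s r)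
    rcases le_or_gt t 0 with h | h
    · have h' : (t : ℝ) ≤ 0 := by exact_mod_cast h
      have := mb_le_gb hY hq (s r) (r * α + β) (by
        rw [e3, e1]
        refine le_trans ?_ (le_abs_self _)
        nlinarith)
      linarith
    · have h' : (1 : ℝ) ≤ t := by exact_mod_cast h
      have := mb_le_gb hY hq (q - s r) (r * α + β) (by
        rw [e3, e1, Nat.cast_sub (hs2 r).le]
        refine le_trans ?_ (neg_le_abs _)
        nlinarith)
      linarith
  refine (sum_le_sum key).trans ?_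
  rw [sum_add_distrib]
  have h1 : ∑ r ∈ range q, gb Y q (s r) ≤ ∑ j ∈ range (q + 1), gb Y q j := by
    rw [← sum_image (f := gb Y q) hinj]
    refine sum_le_sum_of_subset_of_nonneg ?_ fun j _ _ => gb_nonneg hY q j
    intro j hj
    obtain ⟨r, _, rfl⟩ := mem_image.1 hj
    exact mem_range.2 (by have := hs2 r; omega)
  have hinj' : Set.InjOn (fun r => q - s r) (range q : Finset ℕ) := by
    intro r hr r' hr' h
    refine hinj hr hr' ?_
    have := hs2 r
    have := hs2 r'
    simp only at h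
    omega
  have h2 : ∑ r ∈ range q, gb Y q (q - s r) ≤ ∑ j ∈ range (q + 1), gb Y q j := by
    rw [← sum_image (f := gb Y q) hinj']
    refine sum_le_sum_of_subset_of_nonneg ?_ fun j _ _ => gb_nonneg hY q j
    intro j hj
    obtain ⟨r, _, rfl⟩ := mem_image.1 hj
    exact mem_range.2 (by omega)
  have h3 := gb_sum hY q
  linarith

end Pool.Agent.Lib.MP_778b46_nt.VA
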