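import Pool.Agent.Lib.MP_778b46_nt.VA.Bil

/-! Vaughan's identity and the bound for exponential sums over primes. -/

noncomputable section

namespace Pool.Agent.Lib.MP_778b46_nt.VA

open Finset Real ArithmeticFunction

/-- Truncation of an arithmetic function at `U`. -/
def cut (U : ℝ) (f : ArithmeticFunction ℝ) : ArithmeticFunction ℝ :=
  ⟨fun n => if (n : ℝ) ≤ U then f n else 0, by simp⟩

theorem cut_apply (U : ℝ) (f : ArithmeticFunction ℝ) (n : ℕ) :
    cut U f n = if (n : ℝ) ≤ U then f n else 0 := rfl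

theorem sub_cut_apply (U : ℝ) (f : ArithmeticFunction ℝ) (n : ℕ) :
    (f - cut U f) n = if (n : ℝ) ≤ U then 0 else f n := by
  rw [sub_eq_add_neg, ArithmeticFunction.add_apply, ArithmeticFunction.neg_apply, cut_apply]
  split_ifs <;> ring

/-- Vaughan's identity. -/
theorem vaughan_id (M1 L1 : ArithmeticFunction ℝ) :
    vonMangoldt = L1 + M1 * ArithmeticFunction.log - (M1 * L1) * (zeta : ArithmeticFunction ℝ) +
      ((moebius : ArithmeticFunction ℝ) - M1) *
        ((vonMangoldt - L1) * (zeta : ArithmeticFunction ℝ)) := by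
  have h1 : (moebius : ArithmeticFunction ℝ) * (zeta : ArithmeticFunction ℝ) = 1 :=
    coe_moebius_mul_coe_zeta
  rw [← vonMangoldt_mul_zeta]
  linear_combination (L1 - vonMangoldt) * h1

theorem abs_mu_le (n : ℕ) : |(moebius : ArithmeticFunction ℝ) n| ≤ 1 := by
  rw [intCoe_apply]
  exact_mod_cast abs_moebius_le_one

theorem abs_mul_le_log (f g : ArithmeticFunction ℝ) (hf : ∀ n, |f n| ≤ 1)
    (hg : ∀ n, |g n| ≤ vonMangoldt n) (n : ℕ) : |(f * g) n| ≤ Real.log n := by
  rw [ArithmeticFunction.mul_apply, ← vonMangoldt_sum,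
    ← Nat.sum_divisorsAntidiagonal' (fun _ y => vonMangoldt y)]
  refine (abs_sum_le_sum_abs _ _).trans (sum_le_sum fun x _ => ?_)
  rw [abs_mul]
  exact (mul_le_of_le_one_left (abs_nonneg _) (hf _)).trans (hg _)

theorem abs_zeta_le (n : ℕ) : |(zeta : ArithmeticFunction ℝ) n| ≤ 1 := by
  rw [natCoe_apply, zeta_apply]
  split_ifs <;> simp

variable {α : ℝ} {a : ℤ} {q : ℕ}

theorem vaughan_aux (hq : 0 < q) (hc : IsCoprime a (q : ℤ))
    (hα : |α - a / q| ≤ 1 / (q : ℝ) ^ 2) {N : ℕ} (hN : 0 < N) {U E L : ℝ} (hU : 1 ≤ U)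
    (hE0 : U ^ 2 ≤ E) (hE1 : (N : ℝ) ^ 2 / q ≤ E ^ 2) (hE2 : (N : ℝ) ^ 2 / U ≤ E ^ 2)
    (hE3 : (N : ℝ) * q ≤ E ^ 2) (hE4 : (q : ℝ) ≤ E) (hL1 : 1 + Real.log N ≤ L)
    (hL2 : 1 + Real.log q ≤ L) :
    ‖∑ n ∈ Ioc 0 N, ((vonMangoldt n : ℝ) : ℂ) * ee (n * α)‖ ≤ 277 * E * L ^ 3 := by
  have hq' : (1 : ℝ) ≤ q := by exact_mod_cast hq
  have hE : 0 ≤ E := by linarith
  have hUE : U ≤ E := by nlinarith
  have hlog := Real.log_natCast_nonneg N
  have hL : 1 ≤ L := by linarith
  have hE5 : (N : ℝ) / q ≤ E := by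
    refine le_of_sq_le_sq (le_trans ?_ hE1) hE
    rw [div_pow]
    exact div_le_div_of_nonneg_left (by positivity) (by positivity) (by nlinarith)
  set M1 := cut U (moebius : ArithmeticFunction ℝ) with hM1
  set L1 := cut U vonMangoldt with hL1'
  have hM : ∀ n, |M1 n| ≤ 1 := fun n => by
    rw [hM1, cut_apply]
    split_ifs
    · exact abs_mu_le n
    · simp
  have hLa : ∀ n, |L1 n| ≤ vonMangoldt n := fun n => by
    rw [hL1', cut_apply]
    split_ifs
    · exact (abs_of_nonneg vonMangoldt_nonneg).le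
    · simp
  have hlg : ∀ n ∈ Ioc 0 N, Real.log n ≤ L := fun n hn => by
    linarith [log_natCast_mono (mem_Ioc.1 hn).2]
  have s0 : ‖∑ n ∈ Ioc 0 N, ((L1 n : ℝ) : ℂ) * ee (n * α)‖ ≤ E * L := by
    refine (norm_sum_le _ _).trans ?_
    have h1 : ∀ n ∈ Ioc 0 N, ‖((L1 n : ℝ) : ℂ) * ee (n * α)‖ ≤
        if n ∈ Ioc 0 ⌊U⌋₊ then L else 0 := by
      intro n hn
      rw [norm_mul, norm_ee, mul_one, Complex.norm_real, Real.norm_eq_abs]
      split_ifs with h
      · exact (hLa n).trans (vonMangoldt_le_log.trans (hlg n hn))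
      · rw [hL1', cut_apply, if_neg, abs_zero]
        intro h2
        exact h (mem_Ioc.2 ⟨(mem_Ioc.1 hn).1, Nat.le_floor h2⟩)
    refine (sum_le_sum h1).trans ?_
    rw [← sum_filter, sum_const, nsmul_eq_mul]
    refine mul_le_mul_of_nonneg_right ?_ (by linarith)
    have h2 : #((Ioc 0 N).filter fun n => n ∈ Ioc 0 ⌊U⌋₊) ≤ ⌊U⌋₊ := by
      refine (card_le_card (t := Ioc 0 ⌊U⌋₊) fun n hn => (mem_filter.1 hn).2).trans ?_
      simp
    have h3 : (#((Ioc 0 N).filter fun n => n ∈ Ioc 0 ⌊U⌋₊) : ℝ) ≤ (⌊U⌋₊ : ℕ) := by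
      exact_mod_cast h2
    linarith [Nat.floor_le (a := U) (by linarith)]
  have s1 : ‖∑ n ∈ Ioc 0 N, (((M1 * ArithmeticFunction.log) n : ℝ) : ℂ) * ee (n * α)‖ ≤
      88 * (2 * L) * E * L := by
    rw [conv_sum M1 _ (fun n => ee (n * α))]
    refine typeOne_le hq hc hα hN (by linarith) hE5 hE4 hL1 hL2 _ (fun d hd => ?_) fun d hd => ?_
    · rw [hM1, cut_apply, if_neg (by linarith), Complex.ofReal_zero, zero_mul]
    · rw [norm_mul, Complex.norm_real, Real.norm_eq_abs]
      refine (mul_le_of_le_one_left (norm_nonneg _) (hM d)).trans ?_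
      have h1 := log_geom_le (N / d) (d * α) (N / d) Nat.cast_div_le
      have h2 := log_natCast_mono (Nat.div_le_self N d)
      have h3 := mb_nonneg (Y := (N : ℝ) / d) (by positivity) (d * α)
      refine le_trans (le_of_eq ?_) (h1.trans (mul_le_mul_of_nonneg_right (by linarith) h3))
      congr 1
      refine sum_congr rfl fun m _ => ?_
      rw [log_apply]
      congr 2
      push_cast
      ring
  have s2 : ‖∑ n ∈ Ioc 0 N, ((((M1 * L1) * (zeta : ArithmeticFunction ℝ)) n : ℝ) : ℂ) *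
      ee (n * α)‖ ≤ 88 * L * E * L := by
    rw [conv_sum (M1 * L1) _ (fun n => ee (n * α))]
    refine typeOne_le hq hc hα hN (by linarith) hE5 hE4 hL1 hL2 _ (fun d hd => ?_) fun d hd => ?_
    · rw [ArithmeticFunction.mul_apply, sum_eq_zero, Complex.ofReal_zero, zero_mul]
      intro x hx
      have h1 : (x.1 : ℝ) * x.2 = d := by exact_mod_cast (Nat.mem_divisorsAntidiagonal.1 hx).1
      rw [hM1, hL1', cut_apply, cut_apply]
      split_ifs with h2 h3
      · exfalso
        nlinarith [mul_le_mul h2 h3 (Nat.cast_nonneg _) (by linarith : (0 : ℝ) ≤ U)]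
      all_goals simp
    · rw [norm_mul, Complex.norm_real, Real.norm_eq_abs]
      refine mul_le_mul ((abs_mul_le_log _ _ hM hLa d).trans (hlg d hd)) ?_ (norm_nonneg _)
        (by linarith)
      refine le_trans (le_of_eq ?_) (geom_Ioc_le 0 (N / d) (d * α) (N / d) (by positivity)
        (by simpa using Nat.cast_div_le))
      congr 1
      refine sum_congr rfl fun m hm => ?_
      rw [natCoe_apply, zeta_apply, if_neg (mem_Ioc.1 hm).1.ne']
      simp only [Nat.cast_one, Complex.ofReal_one, one_mul]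
      congr 1
      push_cast
      ring
  have s3 : ‖∑ n ∈ Ioc 0 N, (((((moebius : ArithmeticFunction ℝ) - M1) *
      ((vonMangoldt - L1) * (zeta : ArithmeticFunction ℝ))) n : ℝ) : ℂ) * ee (n * α)‖ ≤
      12 * L * L ^ 2 * E := by
    rw [conv_sum _ _ (fun n => ee (n * α))]
    simp only [Nat.cast_mul]
    refine typeTwo_le hq hc hα (U := U) (by linarith) (by linarith) hE hE1 hE2 hE3 hL1 hL2 _ _
      (fun m => ?_) (fun m hm => ?_) (fun n hn => ?_) fun n hn => ?_
    · rw [hM1, sub_cut_apply]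
      split_ifs
      · simp
      · exact abs_mu_le m
    · rw [hM1, sub_cut_apply, if_pos hm]
    · rw [mul_comm]
      refine (abs_mul_le_log _ _ abs_zeta_le (fun k => ?_) n).trans (hlg n hn)
      rw [hL1', sub_cut_apply]
      split_ifs
      · simp
      · exact (abs_of_nonneg vonMangoldt_nonneg).le
    · rw [ArithmeticFunction.mul_apply, sum_eq_zero]
      intro x hx
      have h1 : (x.1 : ℝ) ≤ n := by
        exact_mod_cast Nat.divisor_le (Nat.fst_mem_divisors_of_mem_antidiagonal hx)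
      rw [hL1', sub_cut_apply, if_pos (h1.trans hn), zero_mul]
  have e : ∑ n ∈ Ioc 0 N, ((vonMangoldt n : ℝ) : ℂ) * ee (n * α) =
      ∑ n ∈ Ioc 0 N, ((L1 n : ℝ) : ℂ) * ee (n * α) +
      ∑ n ∈ Ioc 0 N, (((M1 * ArithmeticFunction.log) n : ℝ) : ℂ) * ee (n * α) -
      ∑ n ∈ Ioc 0 N, ((((M1 * L1) * (zeta : ArithmeticFunction ℝ)) n : ℝ) : ℂ) * ee (n * α) +
      ∑ n ∈ Ioc 0 N, (((((moebius : ArithmeticFunction ℝ) - M1) *
        ((vonMangoldt - L1) * (zeta : ArithmeticFunction ℝ))) n : ℝ) : ℂ) * ee (n * α) := by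
    rw [← sum_add_distrib, ← sum_sub_distrib, ← sum_add_distrib]
    refine sum_congr rfl fun n _ => ?_
    have h := congrArg (fun f : ArithmeticFunction ℝ => f n) (vaughan_id M1 L1)
    simp only [sub_eq_add_neg (L1 + _), ArithmeticFunction.add_apply,
      ArithmeticFunction.neg_apply] at h
    rw [h]
    push_cast
    ring
  rw [e]
  refine (norm_add_le _ _).trans ((add_le_add ((norm_sub_le _ _).trans
    (add_le_add ((norm_add_le _ _).trans (add_le_add s0 s1)) s2)) s3).trans ?_)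
  have a1 : E * L ≤ E * L ^ 3 := mul_le_mul_of_nonneg_left (by nlinarith [sq_nonneg L]) hE
  have a2 : E * L ^ 2 ≤ E * L ^ 3 :=
    mul_le_mul_of_nonneg_left (pow_le_pow_right₀ hL (by norm_num)) hE
  nlinarith

/-- The bound of Vinogradov and Vaughan, uniformly in the length `N ≤ X` of the sum. -/
theorem vaughan_le (hq : 0 < q) (hc : IsCoprime a (q : ℤ))
    (hα : |α - a / q| ≤ 1 / (q : ℝ) ^ 2) {X : ℝ} (hX : 1 ≤ X) {N : ℕ} (hNX : (N : ℝ) ≤ X) :
    ‖∑ n ∈ Ioc 0 N, ((vonMangoldt n : ℝ) : ℂ) * ee (n * α)‖ ≤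
      277 * (X / √q + X ^ (4 / 5 : ℝ) + √(X * q)) * (1 + Real.log X) ^ 3 := by
  have hq' : (1 : ℝ) ≤ q := by exact_mod_cast hq
  have hX0 : 0 < X := by linarith
  have hlX := Real.log_nonneg hX
  have hN0 : (0 : ℝ) ≤ N := Nat.cast_nonneg N
  have p1 : 0 ≤ X / √q := by positivity
  have p2 : 0 ≤ X ^ (4 / 5 : ℝ) := by positivity
  have p3 : 0 ≤ √(X * q) := by positivity
  rcases Nat.eq_zero_or_pos N with rfl | hN
  · simp only [Ioc_self, sum_empty, norm_zero]
    positivity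
  have hl : Real.log N ≤ Real.log X := Real.log_le_log (by exact_mod_cast hN) hNX
  rcases le_or_gt (q : ℝ) X with h | h
  · have e1 : (X / √q) ^ 2 = X ^ 2 / q := by rw [div_pow, Real.sq_sqrt (by linarith)]
    have e2 : (X ^ (4 / 5 : ℝ)) ^ 2 = X ^ 2 / X ^ (2 / 5 : ℝ) := by
      rw [← Real.rpow_natCast, ← Real.rpow_mul hX0.le, ← Real.rpow_natCast, ← Real.rpow_sub hX0]
      norm_num
    have e3 : √(X * q) ^ 2 = X * q := Real.sq_sqrt (by positivity)
    have e4 : (X ^ (2 / 5 : ℝ)) ^ 2 = X ^ (4 / 5 : ℝ) := by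
      rw [← Real.rpow_natCast, ← Real.rpow_mul hX0.le]
      norm_num
    have hU : 1 ≤ X ^ (2 / 5 : ℝ) := Real.one_le_rpow hX (by norm_num)
    have hN2 : (N : ℝ) ^ 2 ≤ X ^ 2 := by gcongr
    refine vaughan_aux hq hc hα hN hU (by linarith) ?_ ?_ ?_ ?_ (by linarith)
      (by linarith [Real.log_le_log (by linarith) h])
    · refine (div_le_div_of_nonneg_right hN2 (by linarith)).trans ?_
      rw [← e1]
      gcongr
      linarith
    · refine (div_le_div_of_nonneg_right hN2 (by linarith)).trans ?_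
      rw [← e2]
      gcongr
      linarith
    · refine (mul_le_mul_of_nonneg_right hNX (by linarith)).trans ?_
      refine e3.symm.le.trans ?_
      gcongr
      linarith
    · have : (q : ℝ) ≤ √(X * q) := Real.le_sqrt_of_sq_le (by nlinarith)
      linarith
  · refine (norm_sum_le _ _).trans ?_
    have h1 : ∀ n ∈ Ioc 0 N, ‖((vonMangoldt n : ℝ) : ℂ) * ee (n * α)‖ ≤ Real.log X := by
      intro n hn
      rw [norm_mul, norm_ee, mul_one, Complex.norm_real, Real.norm_of_nonneg vonMangoldt_nonneg]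
      exact vonMangoldt_le_log.trans ((log_natCast_mono (mem_Ioc.1 hn).2).trans hl)
    refine (sum_le_sum h1).trans ?_
    rw [sum_const, Nat.card_Ioc, nsmul_eq_mul, Nat.sub_zero]
    have h2 : X ≤ √(X * q) := Real.le_sqrt_of_sq_le (by nlinarith)
    have h3 : Real.log X ≤ (1 + Real.log X) ^ 3 := by nlinarith [sq_nonneg (Real.log X)]
    exact mul_le_mul (by linarith) h3 hlX (by positivity)

end Pool.Agent.Lib.MP_778b46_nt.VA
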