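import Pool.Agent.Lib.MP_778b46_nt.VA.Mult

/-! The mean square of the difference between the number of representations and its smoothed
major arc model. -/

noncomputable section

namespace Pool.Agent.Lib.MP_778b46_nt.VA

open Finset Real ArithmeticFunction MeasureTheory

theorem mink {ι : Type*} (S : Finset ι) (Φ : ι → ℝ → ℂ) (a b B : ℝ) (hB : 0 ≤ B)
    (hi : ∀ m ∈ S, IntervalIntegrable (Φ m) volume a b)
    (h : ∀ v ∈ Set.uIoc a b, ∑ m ∈ S, ‖Φ m v‖ ^ 2 ≤ B ^ 2) :
    ∑ m ∈ S, ‖∫ v in a..b, Φ m v‖ ^ 2 ≤ (B * |b - a|) ^ 2 := by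
  set z : ι → ℂ := fun m => ∫ v in a..b, Φ m v with hz
  set Z := √(∑ m ∈ S, ‖z m‖ ^ 2) with hZ
  have hZ0 : 0 ≤ Z := Real.sqrt_nonneg _
  have hZ2 : Z ^ 2 = ∑ m ∈ S, ‖z m‖ ^ 2 := Real.sq_sqrt (sum_nonneg fun _ _ => sq_nonneg _)
  have e : ((Z ^ 2 : ℝ) : ℂ) = ∫ v in a..b, ∑ m ∈ S, (starRingEnd ℂ) (z m) * Φ m v := by
    rw [intervalIntegral.integral_finsetSum fun m hm => (hi m hm).const_mul _, hZ2,
      Complex.ofReal_sum]
    refine sum_congr rfl fun m _ => ?_
    rw [intervalIntegral.integral_const_mul, Complex.ofReal_pow, ← Complex.conj_mul']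
  have h1 : ‖∫ v in a..b, ∑ m ∈ S, (starRingEnd ℂ) (z m) * Φ m v‖ ≤ Z * B * |b - a| := by
    refine intervalIntegral.norm_integral_le_of_norm_le_const fun v hv => ?_
    refine (norm_sum_le _ _).trans (le_of_sq_le_sq ?_ (by positivity))
    simp only [norm_mul, Complex.norm_conj]
    refine (sum_mul_sq_le_sq_mul_sq S _ _).trans ?_
    rw [mul_pow, hZ2]
    exact mul_le_mul_of_nonneg_left (h v hv) (sum_nonneg fun _ _ => sq_nonneg _)
  rw [← e, Complex.norm_real, Real.norm_of_nonneg (sq_nonneg _)] at h1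
  rw [← hZ2]
  refine pow_le_pow_left₀ hZ0 ?_ 2
  rcases hZ0.eq_or_lt with h0 | h0
  · rw [← h0]
    positivity
  · refine le_of_mul_le_mul_left ?_ h0
    linarith

theorem tri_one_int : ∫ v in (-1 : ℝ)..1, tri 1 v = 1 := by
  have hc := continuous_tri 1
  rw [← intervalIntegral.integral_add_adjacent_intervals (b := 0) (hc.intervalIntegrable _ _)
    (hc.intervalIntegrable _ _)]
  have e1 : ∫ v in (-1 : ℝ)..0, tri 1 v = ∫ v in (-1 : ℝ)..0, (1 + v) := by
    refine intervalIntegral.integral_congr fun v hv => ?_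
    rw [Set.uIcc_of_le (by norm_num)] at hv
    simp only [tri, Nat.cast_one, one_pow, div_one]
    rw [abs_of_nonpos hv.2, max_eq_left (by linarith [hv.1])]
    ring
  have e2 : ∫ v in (0 : ℝ)..1, tri 1 v = ∫ v in (0 : ℝ)..1, (1 - v) := by
    refine intervalIntegral.integral_congr fun v hv => ?_
    rw [Set.uIcc_of_le (by norm_num)] at hv
    simp only [tri, Nat.cast_one, one_pow, div_one]
    rw [abs_of_nonneg hv.1, max_eq_left (by linarith [hv.2])]
  rw [e1, e2, intervalIntegral.integral_add (by simp) (by simp),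
    intervalIntegral.integral_sub (by simp) (by simp)]
  norm_num [integral_id]

theorem tri_scale {w : ℕ} (hw : 0 < w) (v : ℝ) : w * tri w (w * v) = tri 1 v := by
  have hw' : (0 : ℝ) < w := by exact_mod_cast hw
  unfold tri
  rw [abs_mul, Nat.abs_cast, show (w : ℝ) - w * |v| = w * (1 - |v|) by ring,
    show max ((w : ℝ) * (1 - |v|)) 0 = w * max (1 - |v|) 0 by
      rw [mul_max_of_nonneg _ _ hw'.le, mul_zero]]
  push_cast
  field_simp

theorem tri_int_eq {A B : ℝ} (hAB : A ≤ B) {w : ℕ} (hw : 0 < w) (n y : ℝ) :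
    ∫ t in A..B, tri w (t - n) * tri w (y - t) =
      ∫ v in (-1 : ℝ)..1, tri 1 v * (ind A B (n + w * v) * tri w (y - n - w * v)) := by
  set φ : ℝ → ℝ := fun t => ind A B t * (tri w (t - n) * tri w (y - t)) with hφ
  have e1 : ∫ t in A..B, tri w (t - n) * tri w (y - t) = ∫ t, φ t := by
    rw [intervalIntegral.integral_of_le hAB, ← integral_indicator measurableSet_Ioc]
    congr 1
    ext t
    simp only [hφ, ind, Set.indicator, Set.mem_Ioc]
    split_ifs <;> simp
  have e2 : ∫ t in (n + w * (-1))..(n + w * 1), φ t = ∫ t, φ t := by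
    refine intervalIntegral.integral_eq_integral_of_support_subset fun t ht => ?_
    by_contra hc
    refine ht ?_
    have : (w : ℝ) ≤ |t - n| := by
      rw [Set.mem_Ioc, not_and_or, not_lt, not_le] at hc
      rw [le_abs]
      rcases hc with h | h
      · right; linarith
      · left; linarith
    simp only [hφ, tri_eq_zero this, zero_mul, mul_zero]
  rw [e1, ← e2, ← intervalIntegral.smul_integral_comp_add_mul, smul_eq_mul,
    ← intervalIntegral.integral_const_mul]
  refine intervalIntegral.integral_congr fun v _ => ?_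
  simp only [hφ]
  rw [← tri_scale hw v, add_sub_cancel_left, ← sub_sub]
  ring

theorem ind_integrable (A B n w : ℝ) (ψ : ℝ → ℂ) (hψ : Continuous ψ) (a b : ℝ) :
    IntervalIntegrable (fun v => ((ind A B (n + w * v) : ℝ) : ℂ) * ψ v) volume a b := by
  refine IntervalIntegrable.mul_continuousOn ?_ hψ.continuousOn
  refine (intervalIntegrable_const (c := (1 : ℝ))).mono_fun' ?_
    (Filter.Eventually.of_forall fun v => ?_)
  · refine (Complex.measurable_ofReal.comp ?_).aestronglyMeasurable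
    unfold ind
    refine Measurable.ite ?_ measurable_const measurable_const
    exact (by fun_prop : Measurable fun v : ℝ => n + w * v) (measurableSet_Ioc (a := A) (b := B))
  · simp only [Complex.norm_real, Real.norm_eq_abs]
    exact abs_ind_le _ _ _

/-- The weighted number of representations `m = n + n'` with `A < n ≤ B`. -/
def repR (N : ℕ) (A B : ℝ) (m : ℕ) : ℂ :=
  ∑ n ∈ Ioc 0 N, ∑ n' ∈ Ioc 0 N, ((vonMangoldt n * vonMangoldt n' : ℝ) : ℂ) *
    ((ind A B n : ℝ) * (if (m : ℤ) - n - n' = 0 then 1 else 0))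

/-- The smoothed major arc model. -/
def repS (N : ℕ) (P A B : ℝ) (h : ℕ → ℕ) (m : ℕ) : ℂ :=
  ∑ r ∈ Icc 1 ⌊P⌋₊, ∫ t in A..B, ∑ n ∈ Ioc 0 N, ∑ n' ∈ Ioc 0 N,
    ((vonMangoldt n * vonMangoldt n' : ℝ) : ℂ) * ram r (m - n - n') *
      ((tri (h r) (t - n) * tri (h r) (m - t - n') : ℝ) : ℂ)

variable {N : ℕ} {Y P ρ L : ℝ} {h : ℕ → ℕ}

theorem minor_le (p : Par N Y P ρ L h) {A B : ℝ} (hAB : A ≤ B) (S : Finset ℕ) :
    ∑ m ∈ S, ‖repR N A B m - repS N P A B h m‖ ^ 2 ≤ 24 * 10 ^ 7 * (Y ^ 3 / P) * L ^ 10 := by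
  have hY := p.one_le_Y
  have hP := p.hP
  have hL := p.one_le_L
  have hc := continuous_tri
  set ψ : ℕ → ℕ → ℕ → ℕ → ℝ → ℂ := fun m n n' r v => ((ind A B (n + h r * v) : ℝ) : ℂ) *
    (((vonMangoldt n * vonMangoldt n' : ℝ) : ℂ) * ram r (m - n - n') *
      ((tri 1 v * tri (h r) (m - n - n' - h r * v) : ℝ) : ℂ)) with hψ
  have hψi : ∀ m n n' r, IntervalIntegrable (ψ m n n' r) volume (-1) 1 := fun m n n' r =>
    ind_integrable A B n (h r) _ (by have := hc 1; have := hc (h r); fun_prop) _ _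
  have e1 : ∀ m v, ((tri 1 v : ℝ) : ℂ) * errV N P A B h v m = (tri 1 v : ℝ) * repR N A B m -
      ∑ r ∈ Icc 1 ⌊P⌋₊, ∑ n ∈ Ioc 0 N, ∑ n' ∈ Ioc 0 N, ψ m n n' r v := by
    intro m v
    rw [errV, repR, sum_comm (s := Icc 1 ⌊P⌋₊), mul_sum, mul_sum, ← sum_sub_distrib]
    refine sum_congr rfl fun n _ => ?_
    rw [sum_comm (s := Icc 1 ⌊P⌋₊), mul_sum, mul_sum, ← sum_sub_distrib]
    refine sum_congr rfl fun n' _ => ?_
    rw [mul_sub, mul_sub, mul_sum, mul_sum]
    congr 1
    refine sum_congr rfl fun r _ => ?_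
    simp only [hψ]
    push_cast
    ring
  have i1 : ∀ m, IntervalIntegrable (fun v => ((tri 1 v : ℝ) : ℂ) * repR N A B m) volume (-1) 1 :=
    fun m => Continuous.intervalIntegrable (by have := hc 1; fun_prop) _ _
  have i2 : ∀ m r n, IntervalIntegrable (fun v => ∑ n' ∈ Ioc 0 N, ψ m n n' r v) volume (-1) 1 :=
    fun m r n => by
      have := IntervalIntegrable.sum (Ioc 0 N) fun n' _ => hψi m n n' r
      rwa [Finset.sum_fn] at this
  have i3 : ∀ m r, IntervalIntegrable (fun v => ∑ n ∈ Ioc 0 N, ∑ n' ∈ Ioc 0 N, ψ m n n' r v)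
      volume (-1) 1 := fun m r => by
    have := IntervalIntegrable.sum (Ioc 0 N) fun n _ => i2 m r n
    rwa [Finset.sum_fn] at this
  have i4 : ∀ m, IntervalIntegrable (fun v => ∑ r ∈ Icc 1 ⌊P⌋₊, ∑ n ∈ Ioc 0 N, ∑ n' ∈ Ioc 0 N,
      ψ m n n' r v) volume (-1) 1 := fun m => by
    have := IntervalIntegrable.sum (Icc 1 ⌊P⌋₊) fun r _ => i3 m r
    rwa [Finset.sum_fn] at this
  have e2 : ∀ m ∈ S, ‖repR N A B m - repS N P A B h m‖ ^ 2 =
      ‖∫ v in (-1 : ℝ)..1, ((tri 1 v : ℝ) : ℂ) * errV N P A B h v m‖ ^ 2 := by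
    intro m _
    congr 2
    simp only [e1]
    rw [intervalIntegral.integral_sub (i1 m) (i4 m), intervalIntegral.integral_mul_const,
      intervalIntegral.integral_ofReal, tri_one_int, Complex.ofReal_one, one_mul,
      intervalIntegral.integral_finsetSum fun r _ => i3 m r, repS]
    congr 1
    refine sum_congr rfl fun r hr => ?_
    have := hc (h r)
    rw [intervalIntegral.integral_finsetSum fun n _ => i2 m r n,
      intervalIntegral.integral_finsetSum fun n _ =>
        Continuous.intervalIntegrable (by fun_prop) _ _]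
    refine sum_congr rfl fun n _ => ?_
    rw [intervalIntegral.integral_finsetSum fun n' _ => hψi m n n' r,
      intervalIntegral.integral_finsetSum fun n _ =>
        Continuous.intervalIntegrable (by fun_prop) _ _]
    refine sum_congr rfl fun n' _ => ?_
    have e3 := tri_int_eq hAB (p.h_pos hr) n (m - n')
    simp only [sub_right_comm (m : ℝ) n'] at e3
    rw [intervalIntegral.integral_const_mul, intervalIntegral.integral_ofReal, e3,
      ← intervalIntegral.integral_ofReal, ← intervalIntegral.integral_const_mul]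
    refine intervalIntegral.integral_congr fun v _ => ?_
    simp only [hψ]
    push_cast
    ring
  rw [sum_congr rfl e2]
  have q0 : 0 ≤ 6 * 10 ^ 7 * (Y ^ 3 / P) * L ^ 10 := by positivity
  refine (mink S (fun m v => ((tri 1 v : ℝ) : ℂ) * errV N P A B h v m) (-1) 1
    √(6 * 10 ^ 7 * (Y ^ 3 / P) * L ^ 10) (Real.sqrt_nonneg _) (fun m _ => ?_) fun v hv => ?_).trans
    (le_of_eq ?_)
  · simp only [e1]
    exact (i1 m).sub (i4 m)
  · rw [Set.uIoc_of_le (by norm_num)] at hv
    rw [Real.sq_sqrt q0]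
    refine le_trans (sum_le_sum fun m _ => ?_)
      (errV_sq_le p (abs_le.2 ⟨hv.1.le, hv.2⟩) A B S)
    refine pow_le_pow_left₀ (norm_nonneg _) ?_ 2
    rw [norm_mul, Complex.norm_real, Real.norm_of_nonneg (tri_nonneg _ _)]
    exact mul_le_of_le_one_left (norm_nonneg _) (by simpa using tri_le (h := 1) one_pos v)
  · rw [mul_pow, Real.sq_sqrt q0]
    norm_num
    ring

end Pool.Agent.Lib.MP_778b46_nt.VA
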