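import Pool.Agent.Lib.MP_778b46_nt.VA.Arc

/-! The multipliers of the smoothed major arcs. -/

noncomputable section

namespace Pool.Agent.Lib.MP_778b46_nt.VA

open Finset Real ArithmeticFunction

/-- Ramanujan's sum. -/
def ram (r : ℕ) (k : ℤ) : ℂ := ∑ a ∈ (range r).filter (fun a => Nat.Coprime a r), ee (a * k / r)

/-- The kernel of the smoothed arcs with denominators in `R`. -/
def kap (R : Finset ℕ) (h : ℕ → ℕ) (v : ℝ) (k : ℤ) : ℂ :=
  ∑ r ∈ R, ram r k * tri (h r) (k - h r * v)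

/-- Conditions on the parameters. -/
structure Par (N : ℕ) (Y P ρ L : ℝ) (h : ℕ → ℕ) : Prop where
  hN : (N : ℝ) ≤ Y
  hP : 1 ≤ P
  hPY : 2 * P ^ 2 < Y
  h45 : Y ^ (4 / 5 : ℝ) ≤ Y / √P
  hL : 1 + Real.log Y ≤ L
  hρ : ∀ r ∈ Icc 1 ⌊P⌋₊, (r : ℝ) ≤ ρ * h r
  hδ : 128 * P ^ 3 * ρ ^ 2 ≤ 1 / √P
  hh : ∀ r ∈ Icc 1 ⌊P⌋₊, (h r : ℝ) ≤ r * Y / P
  hd : ∀ r, h r = h (2 ^ Nat.log 2 r)

theorem abs_mul_le_self (h : ℕ) {v : ℝ} (hv : |v| ≤ 1) : |(h : ℝ) * v| ≤ h := by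
  rw [abs_mul, Nat.abs_cast]
  exact mul_le_of_le_one_right (Nat.cast_nonneg h) hv

theorem kap_eq_zero {R : Finset ℕ} {h : ℕ → ℕ} {v : ℝ} (hv : |v| ≤ 1) {H : ℤ}
    (hH : ∀ r ∈ R, 2 * (h r : ℤ) ≤ H) (k : ℤ) (hk : k ∉ Icc (-H) H) : kap R h v k = 0 := by
  refine sum_eq_zero fun r hr => ?_
  have h1 : 2 * (h r : ℤ) ≤ |k| := by
    have := hH r hr
    simp only [mem_Icc] at hk
    rcases abs_cases k with h2 | h2 <;> omega
  have h2 : 2 * (h r : ℝ) ≤ |(k : ℝ)| := by exact_mod_cast h1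
  have h3 := abs_add_le (k - h r * v) (h r * v)
  rw [sub_add_cancel] at h3
  rw [tri_eq_zero (by linarith [abs_mul_le_self (h r) hv]), Complex.ofReal_zero, mul_zero]

theorem kap_hat (R : Finset ℕ) (h : ℕ → ℕ) (v : ℝ) (H : ℤ) (x : ℝ) :
    ∑ k ∈ Icc (-H) H, kap R h v k * ee (k * x) =
      ∑ ω ∈ frs R, triT (h ω.1) (h ω.1 * v) H (x + ω.2 / ω.1) := by
  simp only [kap, ram, frs, triT, sum_sigma, sum_mul]
  rw [sum_comm]
  refine sum_congr rfl fun r _ => ?_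
  rw [sum_comm]
  refine sum_congr rfl fun a _ => sum_congr rfl fun k _ => ?_
  have : (k : ℝ) * (x + a / r) = a * k / r + k * x := by ring
  rw [this, ee_add]
  ring

variable {N : ℕ} {Y P ρ L v : ℝ} {h : ℕ → ℕ} {H : ℤ}

theorem Par.one_le_Y (p : Par N Y P ρ L h) : 1 ≤ Y := by nlinarith [p.hP, p.hPY]

theorem Par.one_le_L (p : Par N Y P ρ L h) : 1 ≤ L := by
  linarith [p.hL, Real.log_nonneg p.one_le_Y]

theorem Par.le_P (p : Par N Y P ρ L h) {r : ℕ} (hr : r ∈ Icc 1 ⌊P⌋₊) : (r : ℝ) ≤ P :=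
  (Nat.cast_le.2 (mem_Icc.1 hr).2).trans (Nat.floor_le (by linarith [p.hP]))

theorem Par.h_pos (p : Par N Y P ρ L h) {r : ℕ} (hr : r ∈ Icc 1 ⌊P⌋₊) : 0 < h r := by
  refine Nat.pos_of_ne_zero fun h0 => ?_
  have h1 := p.hρ r hr
  have h2 : (1 : ℝ) ≤ r := by exact_mod_cast (mem_Icc.1 hr).1
  rw [h0] at h1
  simp only [Nat.cast_zero, mul_zero] at h1
  linarith

theorem Par.logP (p : Par N Y P ρ L h) : 1 + Real.log P ≤ L := by
  have : Real.log P ≤ Real.log Y := Real.log_le_log (by linarith [p.hP]) (by nlinarith [p.hP, p.hPY])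
  linarith [p.hL]

theorem mult_split (p : Par N Y P ρ L h) (hv : |v| ≤ 1) {R : Finset ℕ} (hR : R ⊆ Icc 1 ⌊P⌋₊)
    (hH : ∀ r ∈ R, 2 * (h r : ℤ) ≤ H) (x : ℝ) : ∃ e : ℂ, ‖GG N x‖ * ‖e‖ ≤ Y / √P * L ^ 3 ∧
      (((∀ ω ∈ frs R, ¬ Near P x ω) ∧ ∑ k ∈ Icc (-H) H, kap R h v k * ee (k * x) = e) ∨
        ∃ ω ∈ frs R, Near P x ω ∧ ∑ k ∈ Icc (-H) H, kap R h v k * ee (k * x) =
          triT (h ω.1) (h ω.1 * v) H (x + ω.2 / ω.1) + e) := by
  classical
  have hY := p.one_le_Y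
  have hL := p.one_le_L
  refine ⟨∑ ω ∈ (frs R).filter (fun ω => ¬ Near P x ω),
    triT (h ω.1) (h ω.1 * v) H (x + ω.2 / ω.1), ?_, ?_⟩
  · have h1 := far_le (x := x) p.hP p.logP hR h fun r hr => p.hρ r (hR hr)
    have h2 : ‖∑ ω ∈ (frs R).filter (fun ω => ¬ Near P x ω),
        triT (h ω.1) (h ω.1 * v) H (x + ω.2 / ω.1)‖ ≤ L * (1 / √P) := by
      refine (norm_sum_le _ _).trans ((sum_le_sum fun ω hω => norm_triT_le
        (abs_mul_le_self _ hv) (hH _ (mem_sigma.1 (mem_filter.1 hω).1).1) _).trans (h1.trans ?_))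
      nlinarith [mul_le_mul_of_nonneg_left p.hδ (by linarith : 0 ≤ L)]
    have h3 : ‖GG N x‖ ≤ Y * L := (GG_triv hY p.hN x).trans
      (mul_le_mul_of_nonneg_left (by linarith [p.hL]) (by linarith))
    calc _ ≤ (Y * L) * (L * (1 / √P)) := mul_le_mul h3 h2 (norm_nonneg _) (by positivity)
      _ = Y / √P * L ^ 2 := by ring
      _ ≤ _ := mul_le_mul_of_nonneg_left (pow_le_pow_right₀ hL (by norm_num)) (by positivity)
  · rw [kap_hat, ← sum_filter_add_sum_filter_not (frs R) (Near P x)]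
    by_cases hn : ∃ ω ∈ frs R, Near P x ω
    · obtain ⟨ω, h1, h2⟩ := hn
      refine Or.inr ⟨ω, h1, h2, ?_⟩
      congr 1
      refine sum_eq_single_of_mem ω (mem_filter.2 ⟨h1, h2⟩) fun ω' h' hne => absurd ?_ hne
      exact near_unique (fun r hr => p.le_P (hR hr)) (mem_filter.1 h').1 h1 (mem_filter.1 h').2 h2
    · push Not at hn
      refine Or.inl ⟨hn, ?_⟩
      rw [filter_false_of_mem hn, sum_empty, zero_add]

theorem mult_main (p : Par N Y P ρ L h) (hv : |v| ≤ 1)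
    (hH : ∀ r ∈ Icc 1 ⌊P⌋₊, 2 * (h r : ℤ) ≤ H) (x : ℝ) :
    ‖GG N x‖ * ‖1 - ∑ k ∈ Icc (-H) H, kap (Icc 1 ⌊P⌋₊) h v k * ee (k * x)‖ ≤
      3325 * (Y / √P) * L ^ 3 := by
  have hY := p.one_le_Y
  have hl := Real.log_nonneg hY
  have h0 : 0 ≤ Y / √P := by positivity
  have hL3 : (1 + Real.log Y) ^ 3 ≤ L ^ 3 := pow_le_pow_left₀ (by linarith) p.hL 3
  have hL3' := mul_le_mul_of_nonneg_left hL3 h0
  have hL0 : 0 ≤ Y / √P * (1 + Real.log Y) ^ 3 := by positivity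
  obtain ⟨e, he, h1 | ⟨ω, h1, h2, h3⟩⟩ := mult_split p hv subset_rfl hH x
  · rw [h1.2]
    have h2 := GG_far p.hN p.hP p.hPY p.h45 h1.1
    have h3 : ‖1 - e‖ ≤ 1 + ‖e‖ := by simpa using norm_sub_le 1 e
    nlinarith [mul_le_mul_of_nonneg_left h3 (norm_nonneg (GG N x))]
  · obtain ⟨r, a⟩ := ω
    simp only [frs, mem_sigma, mem_filter, mem_range, Near] at h1 h2 h3
    have hr : 0 < r := by omega
    obtain ⟨b, hb, e1⟩ := near_approx hr h1.2.2 x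
    rw [h3, ← sub_sub]
    have hu := abs_mul_le_self (h r) hv
    have h4 := norm_one_sub_triT_le (p.h_pos h1.1) hu (hH r h1.1) (x + a / r)
    have h5 := (norm_triT_le hu (hH r h1.1) (x + a / r)).trans (fej_le_one (p.h_pos h1.1) _)
    generalize triT (h r) (h r * v) H (x + a / r) = T at *
    rw [e1] at h2 h4
    have h6 := GG_near (w := ‖1 - T‖) hY p.hN p.hP p.h45 hr (p.le_P h1.1) hb h2 (norm_nonneg _)
      ((norm_sub_le 1 T).trans (by rw [norm_one]; linarith))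
      (h4.trans (by gcongr; exact p.hh r h1.1))
    nlinarith [mul_le_mul_of_nonneg_left (norm_sub_le (1 - T) e) (norm_nonneg (GG N x))]

theorem mult_bdry (p : Par N Y P ρ L h) (hv : |v| ≤ 1) {R : Finset ℕ} (hR : R ⊆ Icc 1 ⌊P⌋₊)
    (hH : ∀ r ∈ R, 2 * (h r : ℤ) ≤ H) {M : ℝ} (hM : 0 < M) (hMP : M ≤ P)
    (hMR : ∀ r ∈ R, M ≤ r) (x : ℝ) :
    ‖GG N x‖ * ‖∑ k ∈ Icc (-H) H, kap R h v k * ee (k * x)‖ ≤ 832 * (Y / √M) * L ^ 3 := by
  have hY := p.one_le_Y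
  have hL := p.one_le_L
  have hl := Real.log_nonneg hY
  have h0 : 0 ≤ Y / √M := by positivity
  have h00 : Y / √P ≤ Y / √M := by gcongr
  have hL3 : (1 + Real.log Y) ^ 3 ≤ L ^ 3 := pow_le_pow_left₀ (by linarith) p.hL 3
  have hL3' := mul_le_mul_of_nonneg_left hL3 h0
  have hL4 := mul_le_mul_of_nonneg_right h00 (by positivity : 0 ≤ L ^ 3)
  have hL0 : 0 ≤ Y / √M * L ^ 3 := by positivity
  obtain ⟨e, he, h1 | ⟨ω, h1, h2, h3⟩⟩ := mult_split p hv hR hH x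
  · rw [h1.2]
    linarith
  · obtain ⟨r, a⟩ := ω
    simp only [frs, mem_sigma, mem_filter, mem_range, Near] at h1 h2 h3
    have hr : 0 < r := by omega
    have hr' : (0 : ℝ) < r := by exact_mod_cast hr
    obtain ⟨b, hb, e1⟩ := near_approx hr h1.2.2 x
    rw [h3]
    have h5 := (norm_triT_le (abs_mul_le_self (h r) hv) (hH r h1.1) (x + a / r)).trans
      (fej_le_one (p.h_pos (hR h1.1)) _)
    generalize triT (h r) (h r * v) H (x + a / r) = T at *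
    rw [e1] at h2
    have hrP := p.le_P (hR h1.1)
    have h6 := GG_le (Q := Y / M) hY p.hN hM (p.h45.trans h00) (hMR r h1.1)
      (by rw [le_div_iff₀ hM]; nlinarith [p.hPY]) hb (x := x)
      (by rw [le_div_iff₀ (by positivity)]
          nlinarith [mul_nonneg hr'.le (abs_nonneg (x - b / r))])
    rw [sqrt_mul_div (by linarith) hM] at h6
    nlinarith [mul_le_mul_of_nonneg_left ((norm_add_le T e).trans (add_le_add_left h5 _))
      (norm_nonneg (GG N x))]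

/-- The indicator of the interval `(A, B]`. -/
def ind (A B y : ℝ) : ℝ := if A < y ∧ y ≤ B then 1 else 0

theorem abs_ind_le (A B y : ℝ) : |ind A B y| ≤ 1 := by
  unfold ind
  split_ifs <;> simp

theorem near_int {A : ℝ} {n h : ℕ} (h1 : |(n : ℝ) - A| ≤ h) : n ∈ Icc (⌊A⌋₊ - h) (⌊A⌋₊ + h) := by
  rw [abs_le] at h1
  have h2 := Nat.lt_floor_add_one A
  have h3 : (n : ℝ) < (⌊A⌋₊ + h + 1 : ℕ) := by
    push_cast
    linarith
  have h4 : n < ⌊A⌋₊ + h + 1 := by exact_mod_cast h3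
  have h5 : ⌊A⌋₊ ≤ n + h := Nat.floor_le_of_le (by push_cast; linarith)
  rw [mem_Icc]
  omega

theorem bdry_sq_le (p : Par N Y P ρ L h) (A B : ℝ) {w : ℕ} (hw : 0 < w) {u : ℝ} (hu : |u| ≤ w) :
    ∑ n ∈ Ioc 0 N, ‖((vonMangoldt n * (ind A B (n + u) - ind A B n) : ℝ) : ℂ)‖ ^ 2 ≤
      6 * w * L ^ 2 := by
  classical
  have hL := p.one_le_L
  set T := Icc (⌊A⌋₊ - w) (⌊A⌋₊ + w) ∪ Icc (⌊B⌋₊ - w) (⌊B⌋₊ + w) with hT
  have h1 : ∀ n ∈ Ioc 0 N, ‖((vonMangoldt n * (ind A B (n + u) - ind A B n) : ℝ) : ℂ)‖ ^ 2 ≤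
      if n ∈ T then L ^ 2 else 0 := by
    intro n hn
    rw [Complex.norm_real, Real.norm_eq_abs]
    split_ifs with h2
    · refine pow_le_pow_left₀ (abs_nonneg _) ?_ 2
      have a1 : vonMangoldt n ≤ L := by
        have a2 : (n : ℝ) ≤ N := by exact_mod_cast (mem_Ioc.1 hn).2
        have := Real.log_le_log (by exact_mod_cast (mem_Ioc.1 hn).1) (a2.trans p.hN)
        linarith [vonMangoldt_le_log (n := n), p.hL]
      rw [abs_mul, abs_of_nonneg vonMangoldt_nonneg]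
      refine (mul_le_of_le_one_right vonMangoldt_nonneg ?_).trans a1
      unfold ind
      split_ifs <;> simp
    · rw [hT, mem_union, not_or] at h2
      have a1 := mt near_int h2.1
      have a2 := mt near_int h2.2
      rw [not_le, lt_abs] at a1 a2
      rw [abs_le] at hu
      have : ind A B (n + u) = ind A B n := by
        unfold ind
        refine if_congr (and_congr ⟨fun _ => ?_, fun _ => ?_⟩ ⟨fun _ => ?_, fun _ => ?_⟩) rfl rfl
        · rcases a1 with a | a <;> linarith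
        · rcases a1 with a | a <;> linarith
        · rcases a2 with a | a <;> linarith
        · rcases a2 with a | a <;> linarith
      rw [this]
      simp
  refine (sum_le_sum h1).trans ?_
  rw [← sum_filter, sum_const, nsmul_eq_mul]
  refine mul_le_mul_of_nonneg_right ?_ (by positivity)
  have h2 : #((Ioc 0 N).filter fun n => n ∈ T) ≤ 6 * w := by
    refine (card_le_card (t := T) fun n hn => (mem_filter.1 hn).2).trans
      ((card_union_le _ _).trans ?_)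
    simp only [Nat.card_Icc]
    omega
  exact_mod_cast h2

/-- The error for a fixed value `v` of the smoothing variable. -/
def errV (N : ℕ) (P A B : ℝ) (h : ℕ → ℕ) (v : ℝ) (m : ℕ) : ℂ :=
  ∑ n ∈ Ioc 0 N, ∑ n' ∈ Ioc 0 N, ((vonMangoldt n * vonMangoldt n' : ℝ) : ℂ) *
    ((ind A B n : ℝ) * (if (m : ℤ) - n - n' = 0 then 1 else 0) - ∑ r ∈ Icc 1 ⌊P⌋₊,
      ram r (m - n - n') * (ind A B (n + h r * v) * tri (h r) (m - n - n' - h r * v) : ℝ))

theorem log_two_le {n : ℕ} {L : ℝ} (hL : 1 + Real.log n ≤ L) :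
    ((Nat.log 2 n + 1 : ℕ) : ℝ) ≤ 2 * L := by
  have h1 : (Nat.log 2 n : ℝ) * Real.log 2 ≤ Real.log n := by
    rcases Nat.eq_zero_or_pos n with rfl | hN
    · simp
    · rw [← Real.log_pow]
      refine Real.log_le_log (by positivity) ?_
      exact_mod_cast Nat.pow_log_le_self 2 hN.ne'
  push_cast
  nlinarith [Real.log_two_gt_d9, Nat.cast_nonneg (α := ℝ) (Nat.log 2 n)]

theorem errV_sq_le (p : Par N Y P ρ L h) (hv : |v| ≤ 1) (A B : ℝ) (S : Finset ℕ) :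
    ∑ m ∈ S, ‖errV N P A B h v m‖ ^ 2 ≤ 6 * 10 ^ 7 * (Y ^ 3 / P) * L ^ 10 := by
  have hY := p.one_le_Y
  have hL := p.one_le_L
  have hP := p.hP
  have hP1 : 1 ≤ ⌊P⌋₊ := Nat.floor_pos.2 hP
  set H : ℤ := 2 * ((Icc 1 ⌊P⌋₊).sup h : ℕ) with hHdef
  have hH : ∀ r ∈ Icc 1 ⌊P⌋₊, 2 * (h r : ℤ) ≤ H := fun r hr => by
    have := le_sup (f := h) hr
    omega
  set J := range (Nat.log 2 ⌊P⌋₊ + 1) with hJ
  set R : ℕ → Finset ℕ := fun j => (Icc 1 ⌊P⌋₊).filter fun r => Nat.log 2 r = j with hR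
  set g : ℕ → ℂ := fun n => ((vonMangoldt n : ℝ) : ℂ) with hg
  set c0 : ℕ → ℂ := fun m => ∑ n ∈ Ioc 0 N, ∑ n' ∈ Ioc 0 N,
    ((vonMangoldt n * ind A B n : ℝ) : ℂ) * g n' *
      (fun k : ℤ => (if k = 0 then 1 else 0) - kap (Icc 1 ⌊P⌋₊) h v k) (m - n - n') with hc0
  set c : ℕ → ℕ → ℂ := fun j m => ∑ n ∈ Ioc 0 N, ∑ n' ∈ Ioc 0 N,
    ((vonMangoldt n * (ind A B (n + h (2 ^ j) * v) - ind A B n) : ℝ) : ℂ) * g n' *
      kap (R j) h v (m - n - n') with hc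
  have hmap : ∀ r ∈ Icc 1 ⌊P⌋₊, Nat.log 2 r ∈ J := fun r hr =>
    mem_range.2 (Nat.lt_succ_of_le (Nat.log_mono_right (mem_Icc.1 hr).2))
  have e : ∀ m, errV N P A B h v m = c0 m - ∑ j ∈ J, c j m := by
    intro m
    simp only [errV, hc0, hc]
    rw [sum_comm (s := J), ← sum_sub_distrib]
    refine sum_congr rfl fun n _ => ?_
    rw [sum_comm (s := J), ← sum_sub_distrib]
    refine sum_congr rfl fun n' _ => ?_
    have e1 : ∑ j ∈ J, ((vonMangoldt n * (ind A B (n + h (2 ^ j) * v) - ind A B n) : ℝ) : ℂ) *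
        g n' * kap (R j) h v (m - n - n') = ∑ r ∈ Icc 1 ⌊P⌋₊,
        ((vonMangoldt n * (ind A B (n + h r * v) - ind A B n) : ℝ) : ℂ) * g n' *
          (ram r (m - n - n') * tri (h r) (((m : ℤ) - n - n' : ℤ) - h r * v)) := by
      rw [← sum_fiberwise_of_maps_to hmap]
      refine sum_congr rfl fun j _ => ?_
      rw [kap, mul_sum]
      refine sum_congr rfl fun r hr => ?_
      rw [← (mem_filter.1 hr).2, ← p.hd r]
    rw [e1, kap, mul_sub, mul_sub, mul_sum, mul_sum, sub_sub (_ : ℂ), ← sum_add_distrib]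
    congr 1
    · simp only [hg]
      push_cast
      ring
    · refine sum_congr rfl fun r _ => ?_
      simp only [hg]
      push_cast
      ring
  have hΛ : ∀ n ∈ Ioc 0 N, vonMangoldt n ≤ L := fun n hn => by
    have a2 : (n : ℝ) ≤ N := by exact_mod_cast (mem_Ioc.1 hn).2
    have := Real.log_le_log (by exact_mod_cast (mem_Ioc.1 hn).1) (a2.trans p.hN)
    linarith [vonMangoldt_le_log (n := n), p.hL]
  have hH0 : 0 ≤ H := by omega
  have b0 : ∑ m ∈ S, ‖c0 m‖ ^ 2 ≤ 3325 ^ 2 * (Y ^ 3 / P) * L ^ 8 := by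
    refine (conv_sq_le N H (fun n => ((vonMangoldt n * ind A B n : ℝ) : ℂ)) g
      (fun k : ℤ => (if k = 0 then 1 else 0) - kap (Icc 1 ⌊P⌋₊) h v k) (fun k hk => ?_)
      (B := 3325 * (Y / √P) * L ^ 3) (fun x => ?_) S).trans ?_
    · rw [kap_eq_zero hv hH k hk, if_neg, sub_zero]
      rintro rfl
      exact hk (mem_Icc.2 ⟨by omega, hH0⟩)
    · refine le_trans (le_of_eq ?_) (mult_main p hv hH x)
      simp only [sub_mul, sum_sub_distrib, ite_mul, one_mul, zero_mul, sum_ite_eq', mem_Icc]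
      rw [if_pos ⟨by omega, hH0⟩, Int.cast_zero, zero_mul, ee_zero]
      rfl
    · have a1 : ∑ n ∈ Ioc 0 N, ‖((vonMangoldt n * ind A B n : ℝ) : ℂ)‖ ^ 2 ≤ Y * L ^ 2 := by
        refine (sum_le_card_nsmul _ _ (L ^ 2) fun n hn => ?_).trans ?_
        · rw [Complex.norm_real, Real.norm_eq_abs, abs_mul, abs_of_nonneg vonMangoldt_nonneg]
          exact pow_le_pow_left₀ (mul_nonneg vonMangoldt_nonneg (abs_nonneg _))
            ((mul_le_of_le_one_right vonMangoldt_nonneg (abs_ind_le _ _ _)).trans (hΛ n hn)) 2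
        · rw [Nat.card_Ioc, nsmul_eq_mul, Nat.sub_zero]
          exact mul_le_mul_of_nonneg_right p.hN (by positivity)
      refine (mul_le_mul_of_nonneg_left a1 (sq_nonneg _)).trans (le_of_eq ?_)
      rw [mul_pow, mul_pow, div_pow, Real.sq_sqrt (by linarith)]
      ring
  have b1 : ∀ j ∈ J, ∑ m ∈ S, ‖c j m‖ ^ 2 ≤ 6 * 832 ^ 2 * (Y ^ 3 / P) * L ^ 8 := by
    intro j hj
    have h2 : 2 ^ j ∈ Icc 1 ⌊P⌋₊ := mem_Icc.2 ⟨Nat.one_le_two_pow,
      (Nat.pow_le_pow_right (by norm_num) (Nat.le_of_lt_succ (mem_range.1 hj))).trans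
        (Nat.pow_log_le_self 2 (by omega))⟩
    have hM : (0 : ℝ) < (2 ^ j : ℕ) := by positivity
    have hH' : ∀ r ∈ R j, 2 * (h r : ℤ) ≤ H := fun r hr => hH r (mem_filter.1 hr).1
    refine (conv_sq_le N H
      (fun n => ((vonMangoldt n * (ind A B (n + h (2 ^ j) * v) - ind A B n) : ℝ) : ℂ)) g
      (kap (R j) h v) (kap_eq_zero hv hH') (B := 832 * (Y / √(2 ^ j : ℕ)) * L ^ 3)
      (fun x => mult_bdry p hv (filter_subset _ _) hH' hM (p.le_P h2) (fun r hr => ?_) x) S).trans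
      ?_
    · obtain ⟨a1, a2⟩ := mem_filter.1 hr
      rw [← a2]
      exact_mod_cast Nat.pow_log_le_self 2 (by have := (mem_Icc.1 a1).1; omega)
    · have a1 := bdry_sq_le p A B (p.h_pos h2) (abs_mul_le_self (h (2 ^ j)) hv)
      have a2 : 6 * (h (2 ^ j) : ℝ) * L ^ 2 ≤ 6 * ((2 ^ j : ℕ) * Y / P) * L ^ 2 := by
        gcongr
        exact p.hh _ h2
      refine (mul_le_mul_of_nonneg_left (a1.trans a2) (sq_nonneg _)).trans (le_of_eq ?_)
      rw [mul_pow, mul_pow, div_pow, Real.sq_sqrt hM.le]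
      field_simp
  have hJ2 : (#J : ℝ) ≤ 2 * L := by
    rw [hJ, card_range]
    refine log_two_le (le_trans ?_ p.logP)
    have := Real.log_le_log (by exact_mod_cast hP1) (Nat.floor_le (by linarith : 0 ≤ P))
    linarith
  have b2 : ∀ m ∈ S, ‖errV N P A B h v m‖ ^ 2 ≤
      2 * ‖c0 m‖ ^ 2 + 2 * (#J * ∑ j ∈ J, ‖c j m‖ ^ 2) := by
    intro m _
    have a1 : ‖errV N P A B h v m‖ ≤ ‖c0 m‖ + ∑ j ∈ J, ‖c j m‖ := by
      rw [e]
      exact (norm_sub_le _ _).trans (add_le_add_right (norm_sum_le _ _) _)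
    have a2 := sq_sum_le_card_mul_sum_sq (s := J) (f := fun j => ‖c j m‖)
    have a3 := pow_le_pow_left₀ (norm_nonneg _) a1 2
    nlinarith [sq_nonneg (‖c0 m‖ - ∑ j ∈ J, ‖c j m‖)]
  refine (sum_le_sum b2).trans ?_
  rw [sum_add_distrib, ← mul_sum, ← mul_sum, ← mul_sum, sum_comm]
  have b3 := sum_le_card_nsmul _ _ _ b1
  rw [nsmul_eq_mul] at b3
  have q0 : 0 ≤ Y ^ 3 / P := by positivity
  have b4 : (#J : ℝ) * ∑ j ∈ J, ∑ m ∈ S, ‖c j m‖ ^ 2 ≤
      (2 * L) * ((2 * L) * (6 * 832 ^ 2 * (Y ^ 3 / P) * L ^ 8)) :=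
    mul_le_mul hJ2 (b3.trans (by gcongr)) (by positivity) (by positivity)
  have b5 : Y ^ 3 / P * L ^ 8 ≤ Y ^ 3 / P * L ^ 10 :=
    mul_le_mul_of_nonneg_left (pow_le_pow_right₀ hL (by norm_num)) q0
  have b6 : 0 ≤ Y ^ 3 / P * L ^ 10 := by positivity
  nlinarith

end Pool.Agent.Lib.MP_778b46_nt.VA
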