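import Pool.Agent.Lib.MP_778b46_nt.VA.Geom

/-! Sums of `min (Y, 1 / ‖d α‖)` over many blocks; bilinear exponential sums. -/

noncomputable section

namespace Pool.Agent.Lib.MP_778b46_nt.VA

open Finset Real

theorem sum_range_mul_le (f : ℕ → ℝ) (q n : ℕ) (B : ℕ → ℝ)
    (h : ∀ k, ∑ r ∈ range q, f (k * q + r) ≤ B k) :
    ∑ r ∈ range (n * q), f r ≤ ∑ k ∈ range n, B k := by
  induction n with
  | zero => simp
  | succ n ih =>
    rw [Nat.succ_mul, sum_range_add, sum_range_succ]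
    linarith [h n]

theorem lt_div_succ_mul {q : ℕ} (hq : 0 < q) (K : ℕ) : K < (K / q + 1) * q := by
  have := Nat.lt_div_mul_add (a := K) hq
  rw [add_mul, one_mul]
  exact this

theorem one_add_log_nonneg (q : ℕ) : (0 : ℝ) ≤ 1 + Real.log q := by
  have := Real.log_natCast_nonneg q
  linarith

variable {α : ℝ} {a : ℤ} {q : ℕ}

/-- Rows of the bilinear form. -/
theorem row_le (hq : 0 < q) (hc : IsCoprime a (q : ℤ))
    (hα : |α - a / q| ≤ 1 / (q : ℝ) ^ 2) {Y : ℝ} (hY : 0 ≤ Y) (β : ℝ) (K : ℕ) :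
    ∑ r ∈ Ioc 0 K, mb Y (r * α + β) ≤ (K / q + 1) * (12 * Y + 4 * q * (1 + Real.log q)) := by
  have hq' : (0 : ℝ) < q := by exact_mod_cast hq
  have h1 : ∑ r ∈ Ioc 0 K, mb Y (r * α + β) ≤
      ∑ r ∈ range ((K / q + 1) * q), mb Y (r * α + β) := by
    refine sum_le_sum_of_subset_of_nonneg ?_ fun j _ _ => mb_nonneg hY _
    intro j hj
    exact mem_range.2 ((mem_Ioc.1 hj).2.trans_lt (lt_div_succ_mul hq K))
  have h2 := sum_range_mul_le (fun r => mb Y (r * α + β)) q (K / q + 1)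
    (fun _ => 12 * Y + 4 * q * (1 + Real.log q)) (fun k => by
      refine le_trans (le_of_eq ?_) (block_le hq hc hα hY ((k * q : ℕ) * α + β))
      refine sum_congr rfl fun r _ => ?_
      congr 1
      push_cast
      ring)
  rw [sum_const, card_range, nsmul_eq_mul] at h2
  refine h1.trans (h2.trans ?_)
  have h3 : ((K / q + 1 : ℕ) : ℝ) ≤ K / q + 1 := by
    push_cast
    linarith [Nat.cast_div_le (α := ℝ) (m := K) (n := q)]
  have := one_add_log_nonneg q
  exact mul_le_mul_of_nonneg_right h3 (by positivity)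

theorem nd_small (hq : 0 < q) (hc : IsCoprime a (q : ℤ))
    (hα : |α - a / q| ≤ 1 / (q : ℝ) ^ 2) {d : ℕ} (hd : 0 < d) (hdq : 2 * d ≤ q) :
    1 ≤ 2 * q * nd (d * α) := by
  have hq' : (0 : ℝ) < q := by exact_mod_cast hq
  have hd' : (0 : ℝ) ≤ d := Nat.cast_nonneg d
  have hdq' : (2 : ℝ) * d ≤ q := by exact_mod_cast hdq
  set n : ℤ := round (d * α) with hn
  have h1 : (d : ℤ) * a - q * n ≠ 0 := by
    intro h
    have h2 : (q : ℤ) ∣ (d : ℤ) * a := ⟨n, by linarith⟩
    have h3 : (q : ℤ) ∣ (d : ℤ) := hc.symm.dvd_of_dvd_mul_right h2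
    have := Int.le_of_dvd (by exact_mod_cast hd) h3
    omega
  have h2 : (1 : ℝ) ≤ |(d : ℝ) * a - q * n| := by
    have := Int.one_le_abs h1
    exact_mod_cast this
  have e1 : (d : ℝ) * a - q * n = q * (d * α - n) - d * (q * (α - a / q)) := by
    field_simp
    ring
  have h3 : |(d : ℝ) * (q * (α - a / q))| ≤ 1 / 2 := by
    rw [abs_mul, abs_mul, abs_of_nonneg hd', abs_of_pos hq']
    rw [le_div_iff₀ (by positivity)] at hα
    nlinarith [mul_nonneg hq'.le (abs_nonneg (α - a / q))]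
  have h4 := abs_sub (q * (d * α - n)) (d * (q * (α - a / q)))
  rw [← e1, abs_mul (q : ℝ), abs_of_pos hq'] at h4
  have e2 : nd (d * α) = |d * α - n| := rfl
  rw [e2]
  linarith

theorem mb_le_two_mb {Y Z x : ℝ} (hY : 0 ≤ Y) (hZ : 0 < Z) (h : 1 ≤ 2 * Z * nd x) :
    mb Y x ≤ 2 * mb Z x := by
  have h0 := nd_nonneg x
  unfold mb
  rw [← mul_div_assoc, div_le_div_iff₀ (by positivity) (by positivity)]
  nlinarith [mul_le_mul_of_nonneg_left h hY]

/-- The sum that bounds sums of the first type. -/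
theorem one_le (hq : 0 < q) (hc : IsCoprime a (q : ℤ))
    (hα : |α - a / q| ≤ 1 / (q : ℝ) ^ 2) {X : ℝ} (hX : 0 ≤ X) (D : ℕ) :
    ∑ d ∈ Ioc 0 D, mb (X / d) (d * α) ≤
      24 * (X / q) * (1 + Real.log (D + 1)) + (4 * D + 36 * q) * (1 + Real.log q) := by
  have hq' : (0 : ℝ) < q := by exact_mod_cast hq
  have hL := one_add_log_nonneg q
  have hL1 : (1 : ℝ) ≤ 1 + Real.log q := by linarith [Real.log_natCast_nonneg q]
  set n := D / q + 1 with hn
  set F : ℕ → ℝ := fun d => mb (2 * X / (((d / q : ℕ) + 1) * q)) (d * α) with hF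
  set G : ℕ → ℝ := fun d => if d ∈ range q then 2 * mb q (d * α + 0) else 0 with hG
  have hF0 : ∀ d, 0 ≤ F d := fun d => mb_nonneg (by positivity) _
  have hG0 : ∀ d, 0 ≤ G d := fun d => by
    simp only [hG]
    split_ifs
    · have := mb_nonneg hq'.le (d * α + 0)
      linarith
    · exact le_rfl
  have h1 : ∀ d ∈ Ioc 0 D, mb (X / d) (d * α) ≤ F d + G d := by
    intro d hd
    have hd0 : 0 < d := (mem_Ioc.1 hd).1
    have hd' : (0 : ℝ) < d := by exact_mod_cast hd0
    rcases le_or_gt (2 * d) q with h | h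
    · have := mb_le_two_mb (Y := X / d) (by positivity) hq' (nd_small hq hc hα hd0 h)
      have e : G d = 2 * mb q (d * α) := by
        simp only [hG]
        rw [if_pos (mem_range.2 (by omega)), add_zero]
      linarith [hF0 d]
    · have h2 : (d / q + 1) * q ≤ 2 * d := by
        have := Nat.div_mul_le_self d q
        rcases Nat.eq_zero_or_pos (d / q) with h0 | h0
        · rw [h0]; omega
        · nlinarith
      have h2' : (((d / q : ℕ) : ℝ) + 1) * q ≤ 2 * d := by exact_mod_cast h2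
      have : mb (X / d) (d * α) ≤ F d := by
        refine mb_mono (by positivity) ?_ _
        rw [div_le_div_iff₀ hd' (by positivity)]
        nlinarith
      linarith [hG0 d]
  refine (sum_le_sum h1).trans ?_
  rw [sum_add_distrib]
  have h2 : ∑ d ∈ Ioc 0 D, G d ≤ 2 * (12 * q + 4 * q * (1 + Real.log q)) := by
    simp only [hG]
    rw [← sum_filter]
    refine le_trans ?_ (mul_le_mul_of_nonneg_left (block_le hq hc hα hq'.le 0) (by norm_num))
    rw [mul_sum]
    refine sum_le_sum_of_subset_of_nonneg (fun j hj => (mem_filter.1 hj).2) fun j _ _ => ?_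
    have := mb_nonneg hq'.le (j * α + 0)
    linarith
  have h3 : ∑ d ∈ Ioc 0 D, F d ≤ ∑ d ∈ range (n * q), F d := by
    refine sum_le_sum_of_subset_of_nonneg ?_ fun j _ _ => hF0 j
    intro j hj
    exact mem_range.2 ((mem_Ioc.1 hj).2.trans_lt (lt_div_succ_mul hq D))
  have h4 := sum_range_mul_le F q n
    (fun k => 24 * (X / q) * (1 / (k + 1)) + 4 * q * (1 + Real.log q)) (fun k => by
      have := block_le hq hc hα (Y := 2 * X / ((k + 1) * q)) (by positivity) ((k * q : ℕ) * α)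
      refine le_trans (le_of_eq ?_) (this.trans (le_of_eq ?_))
      · refine sum_congr rfl fun r hr => ?_
        have e : (k * q + r) / q = k := by
          rw [add_comm, Nat.add_mul_div_right _ _ hq, Nat.div_eq_of_lt (mem_range.1 hr), zero_add]
        simp only [hF, e]
        congr 1
        push_cast
        ring
      · field_simp
        ring)
  rw [sum_add_distrib, ← mul_sum, sum_const, card_range, nsmul_eq_mul] at h4
  have h5 := harm_le n
  have h6 : Real.log n ≤ Real.log (D + 1) := by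
    refine Real.log_le_log (by positivity) ?_
    have : n ≤ D + 1 := Nat.succ_le_succ (Nat.div_le_self _ _)
    exact_mod_cast this
  have h7 : (n : ℝ) * q ≤ D + q := by
    have : n * q ≤ D + q := by
      rw [hn, add_mul, one_mul]
      exact Nat.add_le_add_right (Nat.div_mul_le_self _ _) _
    exact_mod_cast this
  have h8 : (0 : ℝ) ≤ 24 * (X / q) := by positivity
  nlinarith [mul_le_mul_of_nonneg_left (h5.trans (add_le_add_right h6 1)) h8,
    mul_le_mul_of_nonneg_right h7 hL, mul_le_mul_of_nonneg_left hL1 hq'.le]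

/-- Mean square of the inner sums of a bilinear form over one dyadic block. -/
theorem two_sq_le (hq : 0 < q) (hc : IsCoprime a (q : ℤ))
    (hα : |α - a / q| ≤ 1 / (q : ℝ) ^ 2) (N M : ℕ) (hM : 0 < M) (b : ℕ → ℝ) {B : ℝ}
    (hb : ∀ n ∈ Ioc 0 (N / M), |b n| ≤ B) :
    ∑ m ∈ Ico M (2 * M), ‖∑ n ∈ Ioc 0 (N / m), (b n : ℂ) * ee (m * n * α)‖ ^ 2 ≤
      B ^ 2 * (N / M : ℕ) * (((N / M : ℕ) / q + 1) * (12 * M + 4 * q * (1 + Real.log q))) := by
  set K := N / M with hK
  have hM' : (0 : ℝ) ≤ M := Nat.cast_nonneg M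
  have e1 : ∀ m ∈ Ico M (2 * M), ((‖∑ n ∈ Ioc 0 (N / m), (b n : ℂ) * ee (m * n * α)‖ ^ 2 : ℝ) : ℂ) =
      ∑ n ∈ Ioc 0 K, ∑ n' ∈ Ioc 0 K, (b n : ℂ) * b n' *
        (if m ≤ N / max n n' then ee (m * (n' * α + -(n * α))) else 0) := by
    intro m hm
    have hm0 : 0 < m := hM.trans_le (mem_Ico.1 hm).1
    have e : Ioc 0 (N / m) = (Ioc 0 K).filter fun n => m * n ≤ N := by
      ext n
      simp only [mem_filter, mem_Ioc]
      have h1 : n ≤ N / m ↔ m * n ≤ N := by rw [Nat.le_div_iff_mul_le hm0, mul_comm]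
      have h2 : N / m ≤ K := Nat.div_le_div_left (mem_Ico.1 hm).1 hM
      rw [← h1]
      omega
    rw [Complex.ofReal_pow, ← Complex.conj_mul', map_sum, e, sum_filter, sum_filter, sum_mul_sum]
    refine sum_congr rfl fun n hn => sum_congr rfl fun n' hn' => ?_
    have hn0 : 0 < max n n' := lt_max_of_lt_left (mem_Ioc.1 hn).1
    have e2 : m ≤ N / max n n' ↔ m * n ≤ N ∧ m * n' ≤ N := by
      rw [Nat.le_div_iff_mul_le hn0, mul_max, max_le_iff]
    by_cases h1 : m * n ≤ N <;> by_cases h2 : m * n' ≤ N <;> simp only [e2, h1, h2, if_true,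
      if_false, and_self, and_false, false_and, mul_zero, zero_mul]
    rw [map_mul, conj_ee, Complex.conj_ofReal]
    have : (m : ℝ) * (n' * α + -(n * α)) = -(m * n * α) + m * n' * α := by ring
    rw [this, ee_add]
    ring
  have e2 : ((∑ m ∈ Ico M (2 * M), ‖∑ n ∈ Ioc 0 (N / m), (b n : ℂ) * ee (m * n * α)‖ ^ 2 : ℝ) : ℂ) =
      ∑ n ∈ Ioc 0 K, ∑ n' ∈ Ioc 0 K, (b n : ℂ) * b n' *
        ∑ m ∈ Ico M (min (2 * M) (N / max n n' + 1)), ee (m * (n' * α + -(n * α))) := by
    rw [Complex.ofReal_sum, sum_congr rfl e1, sum_comm]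
    refine sum_congr rfl fun n _ => ?_
    rw [sum_comm]
    refine sum_congr rfl fun n' _ => ?_
    rw [← mul_sum, ← sum_filter]
    congr 2
    ext m
    simp only [mem_filter, mem_Ico, lt_min_iff]
    omega
  have h3 := congrArg norm e2
  rw [Complex.norm_real, Real.norm_of_nonneg (sum_nonneg fun _ _ => sq_nonneg _)] at h3
  rw [h3]
  have h4 : ∀ n ∈ Ioc 0 K, ‖∑ n' ∈ Ioc 0 K, (b n : ℂ) * b n' *
      ∑ m ∈ Ico M (min (2 * M) (N / max n n' + 1)), ee (m * (n' * α + -(n * α)))‖ ≤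
      B ^ 2 * ((K / q + 1) * (12 * M + 4 * q * (1 + Real.log q))) := by
    intro n hn
    have hB : 0 ≤ B := (abs_nonneg _).trans (hb n hn)
    refine (norm_sum_le _ _).trans ?_
    refine le_trans ?_
      (mul_le_mul_of_nonneg_left (row_le hq hc hα hM' (-(n * α)) K) (sq_nonneg B))
    rw [mul_sum]
    refine sum_le_sum fun n' hn' => ?_
    rw [norm_mul, norm_mul, Complex.norm_real, Complex.norm_real, Real.norm_eq_abs,
      Real.norm_eq_abs, sq]
    refine mul_le_mul (mul_le_mul (hb n hn) (hb n' hn') (abs_nonneg _) hB) ?_ (norm_nonneg _)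
      (by positivity)
    refine geom_le _ _ _ _ hM' ?_
    have : ((min (2 * M) (N / max n n' + 1) : ℕ) : ℝ) ≤ (2 * M : ℕ) := by
      exact_mod_cast min_le_left _ _
    push_cast at this ⊢
    linarith
  refine (norm_sum_le _ _).trans ((sum_le_sum h4).trans (le_of_eq ?_))
  rw [sum_const, Nat.card_Ioc, nsmul_eq_mul, Nat.sub_zero]
  ring

end Pool.Agent.Lib.MP_778b46_nt.VA
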